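import Mathlib

/-! From the low and the high part to the measure of the set where `|f| > ε`, uniformly in `ε`. (After
`Pool.Agent.W583.SP.Set` of helper583.) -/

set_option autoImplicit false

namespace Pool.Agent.W263.SP

open MeasureTheory Set Filter

theorem set_uniform {f r E : ℝ → ℝ} {EL : ℝ → ℝ → ℝ} {C : ℝ} (hC : 0 ≤ C)
    (hE : Measurable E) (hEL : ∀ T, Measurable (EL T))
    (hEeq : ∀ u : ℝ, 0 < u → E u = u * f u - r u)
    (hr : ∀ᶠ u : ℝ in atTop, |r u| ≤ C * (1 + Real.log u) ^ 3)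
    (hlow : ∀ T : ℝ, 2 ≤ T → ∀ u : ℝ, 1 ≤ u →
      |EL T u| ≤ C * Real.log T ^ 2 * (1 + Real.log u))
    (hhigh : ∀ T : ℝ, 2 ≤ T → ∀ U : ℝ, 1 ≤ U →
      ∫⁻ u in Icc U (U + 1), ENNReal.ofReal ((E u - EL T u) ^ 2) ≤
        ENNReal.ofReal (C * U ^ 4 / T ^ (1 / 2 : ℝ))) :
    ∃ κ C1 : ℝ, 0 < κ ∧ 0 < C1 ∧ ∀ᶠ U : ℝ in atTop, ∀ ε : ℝ,
      C1 * Real.log U ^ 3 / U ≤ ε →
      volume {u : ℝ | U ≤ u ∧ u ≤ U + 1 ∧ ε < |f u|} ≤
        ENNReal.ofReal (Real.exp (-(κ * √(ε * (U / Real.log U))))) := by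
  obtain ⟨k0, hk0def⟩ : ∃ k0 : ℝ, k0 = min 1 (Real.sqrt (1 / (48 * (C + 1)))) := ⟨_, rfl⟩
  have hk0pos : 0 < k0 := by
    rw [hk0def]
    exact lt_min one_pos (Real.sqrt_pos.2 (by positivity))
  have hk0sq : k0 ^ 2 ≤ 1 / (48 * (C + 1)) := by
    have h1 : k0 ≤ Real.sqrt (1 / (48 * (C + 1))) := by rw [hk0def]; exact min_le_right _ _
    calc k0 ^ 2 ≤ (Real.sqrt (1 / (48 * (C + 1)))) ^ 2 := by gcongr
      _ = _ := Real.sq_sqrt (by positivity)
  have hCk : 3 * C * k0 ^ 2 ≤ 1 / 16 := by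
    calc 3 * C * k0 ^ 2 ≤ 3 * C * (1 / (48 * (C + 1))) := by gcongr
      _ = 1 / 16 * (C / (C + 1)) := by
        field_simp
        ring
      _ ≤ 1 / 16 * 1 := by
        gcongr
        rw [div_le_one (by positivity)]
        linarith
      _ = 1 / 16 := mul_one _
  have hC1' : 0 < 108 * C + (20 / k0) ^ 2 + 1 := by positivity
  obtain ⟨C1, hC1⟩ : ∃ C1 : ℝ, C1 = 108 * C + (20 / k0) ^ 2 + 1 := ⟨_, rfl⟩
  have hC10 : 0 < C1 := by rw [hC1]; exact hC1'
  refine ⟨k0 / 4, C1, by positivity, hC10, ?_⟩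
  obtain ⟨u0, hu0⟩ := Filter.eventually_atTop.1 hr
  filter_upwards [eventually_ge_atTop u0, eventually_ge_atTop (4 * C),
    eventually_ge_atTop (3 : ℝ)] with U hUu0 hUC h5 ε hεU
  have hUpos : 0 < U := by linarith
  have hlogU : 1 ≤ Real.log U := by
    rw [Real.le_log_iff_exp_le hUpos]
    linarith [Real.exp_one_lt_d9]
  have hlogpos : 0 < Real.log U := by linarith
  have hlog3 : 1 ≤ Real.log U ^ 3 := one_le_pow₀ hlogU
  have hε : 0 < ε := lt_of_lt_of_le (by positivity) hεU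
  have hεU' : C1 * Real.log U ^ 3 ≤ ε * U := by rwa [div_le_iff₀ hUpos] at hεU
  have hk2 : 0 ≤ (20 / k0) ^ 2 := by positivity
  have hε3 : 1 / U ^ 2 ≤ ε ^ 2 := by
    have h6 : 1 ≤ ε * U := by
      refine le_trans ?_ hεU'
      have h7 : 1 ≤ C1 := by rw [hC1]; linarith
      nlinarith
    have h7 : 1 / U ≤ ε := by rwa [div_le_iff₀ hUpos]
    have h8 : (1 / U) ^ 2 ≤ ε ^ 2 := by gcongr
    rwa [div_pow, one_pow] at h8
  obtain ⟨s, hs⟩ : ∃ s : ℝ, s = Real.sqrt (ε * (U / Real.log U)) := ⟨_, rfl⟩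
  have hs2 : s ^ 2 = ε * (U / Real.log U) := by
    rw [hs]
    exact Real.sq_sqrt (by positivity)
  have hsq : 20 / k0 * Real.log U ≤ s := by
    rw [hs]
    apply Real.le_sqrt_of_sq_le
    rw [← mul_div_assoc, le_div_iff₀ hlogpos]
    calc (20 / k0 * Real.log U) ^ 2 * Real.log U = (20 / k0) ^ 2 * Real.log U ^ 3 := by ring
      _ ≤ C1 * Real.log U ^ 3 := by
        gcongr
        rw [hC1]
        linarith
      _ ≤ ε * U := hεU'
  have hks : 20 * Real.log U ≤ k0 * s := by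
    calc 20 * Real.log U = k0 * (20 / k0 * Real.log U) := by field_simp
      _ ≤ k0 * s := by gcongr
  rw [← hs]
  obtain ⟨T, hT⟩ : ∃ T : ℝ, T = Real.exp (k0 * s) := ⟨_, rfl⟩
  have hlogT : Real.log T = k0 * s := by rw [hT, Real.log_exp]
  have hTpos : 0 < T := by rw [hT]; exact Real.exp_pos _
  have hT2 : 2 ≤ T := by
    rw [hT, ← Real.log_le_iff_le_exp (by norm_num)]
    have := Real.log_two_lt_d9
    linarith
  -- the pointwise bound
  have hpt : ∀ u ∈ {u : ℝ | U ≤ u ∧ u ≤ U + 1 ∧ ε < |f u|}, ε * U / 2 ≤ |E u - EL T u| := by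
    rintro u ⟨hu1, hu2, hu3⟩
    have hupos : 0 < u := by linarith
    have hlogu : Real.log u ≤ 2 * Real.log U := by
      have : Real.log u ≤ Real.log (U ^ 2) := Real.log_le_log hupos (by nlinarith)
      rwa [Real.log_pow, Nat.cast_ofNat] at this
    have hEL' : |EL T u| ≤ ε / 16 * U := by
      calc |EL T u| ≤ C * Real.log T ^ 2 * (1 + Real.log u) := hlow T hT2 u (by linarith)
        _ ≤ C * Real.log T ^ 2 * (3 * Real.log U) := by
          gcongr
          linarith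
        _ = 3 * C * k0 ^ 2 * (s ^ 2 * Real.log U) := by rw [hlogT]; ring
        _ = 3 * C * k0 ^ 2 * (ε * U) := by
          rw [hs2, mul_assoc ε, div_mul_cancel₀ _ hlogpos.ne']
        _ ≤ 1 / 16 * (ε * U) := by gcongr
        _ = _ := by ring
    have hru : |r u| ≤ ε / 4 * u := by
      have h6 := hu0 u (by linarith)
      have h7 : 0 ≤ Real.log u := Real.log_nonneg (by linarith)
      calc |r u| ≤ C * (1 + Real.log u) ^ 3 := h6
        _ ≤ C * (3 * Real.log U) ^ 3 := by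
          gcongr
          linarith
        _ = 1 / 4 * (108 * C * Real.log U ^ 3) := by ring
        _ ≤ 1 / 4 * (C1 * Real.log U ^ 3) := by
          gcongr
          rw [hC1]
          linarith
        _ ≤ 1 / 4 * (ε * U) := by gcongr
        _ ≤ 1 / 4 * (ε * u) := by gcongr
        _ = _ := by ring
    have hEu : 3 / 4 * ε * U ≤ |E u| := by
      rw [hEeq u hupos]
      have h6 : |u * f u| - |r u| ≤ |u * f u - r u| := abs_sub_abs_le_abs_sub _ _
      rw [abs_mul, abs_of_pos hupos] at h6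
      have h7 : u * ε ≤ u * |f u| := by gcongr
      have h8 : ε * U ≤ ε * u := by gcongr
      nlinarith
    have h9 : |E u| - |EL T u| ≤ |E u - EL T u| := abs_sub_abs_le_abs_sub _ _
    have h10 : 0 < ε * U := by positivity
    linarith
  have hsub : {u : ℝ | U ≤ u ∧ u ≤ U + 1 ∧ ε < |f u|} ⊆
      {u | ENNReal.ofReal ((ε * U / 2) ^ 2) ≤ ENNReal.ofReal ((E u - EL T u) ^ 2)} ∩
        Icc U (U + 1) := by
    intro u hu
    refine ⟨?_, hu.1, hu.2.1⟩
    show ENNReal.ofReal ((ε * U / 2) ^ 2) ≤ ENNReal.ofReal ((E u - EL T u) ^ 2)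
    apply ENNReal.ofReal_le_ofReal
    rw [← sq_abs (E u - EL T u)]
    have := hpt u hu
    have h0 : 0 ≤ ε * U / 2 := by positivity
    gcongr
  have hcheb : ENNReal.ofReal ((ε * U / 2) ^ 2) *
      volume {u : ℝ | U ≤ u ∧ u ≤ U + 1 ∧ ε < |f u|} ≤
      ENNReal.ofReal (C * U ^ 4 / T ^ (1 / 2 : ℝ)) := by
    have hm : Measurable fun u => ENNReal.ofReal ((E u - EL T u) ^ 2) :=
      ((hE.sub (hEL T)).pow_const 2).ennreal_ofReal
    calc ENNReal.ofReal ((ε * U / 2) ^ 2) * volume {u : ℝ | U ≤ u ∧ u ≤ U + 1 ∧ ε < |f u|}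
        ≤ ENNReal.ofReal ((ε * U / 2) ^ 2) * (volume.restrict (Icc U (U + 1)))
          {u | ENNReal.ofReal ((ε * U / 2) ^ 2) ≤ ENNReal.ofReal ((E u - EL T u) ^ 2)} := by
          refine mul_le_mul_right ?_ _
          rw [Measure.restrict_apply (measurableSet_le measurable_const hm)]
          exact measure_mono hsub
      _ ≤ ∫⁻ u in Icc U (U + 1), ENNReal.ofReal ((E u - EL T u) ^ 2) :=
          mul_meas_ge_le_lintegral hm _
      _ ≤ _ := hhigh T hT2 U (by linarith)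
  have hpos : 0 < (ε * U / 2) ^ 2 := by positivity
  have hThalf : T ^ (1 / 2 : ℝ) = Real.exp (k0 * s / 2) := by
    rw [hT, ← Real.exp_mul]
    congr 1
    ring
  have hfin : C * U ^ 4 / T ^ (1 / 2 : ℝ) ≤ (ε * U / 2) ^ 2 * Real.exp (-(k0 / 4 * s)) := by
    have h11 : U ^ 5 ≤ Real.exp (k0 / 4 * s) := by
      rw [← Real.log_le_iff_le_exp (by positivity), Real.log_pow]
      push_cast
      linarith
    have h12 : 4 * C * U ^ 2 ≤ Real.exp (k0 / 4 * s) * ε ^ 2 := by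
      calc 4 * C * U ^ 2 = (4 * C * U ^ 4) * (1 / U ^ 2) := by field_simp
        _ ≤ (U * U ^ 4) * (1 / U ^ 2) := by gcongr
        _ = U ^ 5 * (1 / U ^ 2) := by ring
        _ ≤ Real.exp (k0 / 4 * s) * ε ^ 2 := by
          refine mul_le_mul h11 hε3 (by positivity) (Real.exp_pos _).le
    rw [hThalf, div_le_iff₀ (Real.exp_pos _)]
    have h13 : Real.exp (-(k0 / 4 * s)) * Real.exp (k0 * s / 2) = Real.exp (k0 / 4 * s) := by
      rw [← Real.exp_add]
      congr 1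
      ring
    calc C * U ^ 4 = U ^ 2 / 4 * (4 * C * U ^ 2) := by ring
      _ ≤ U ^ 2 / 4 * (Real.exp (k0 / 4 * s) * ε ^ 2) := by gcongr
      _ = (ε * U / 2) ^ 2 * (Real.exp (-(k0 / 4 * s)) * Real.exp (k0 * s / 2)) := by
        rw [h13]
        ring
      _ = _ := by ring
  have hne : ENNReal.ofReal ((ε * U / 2) ^ 2) ≠ 0 := by
    rw [Ne, ENNReal.ofReal_eq_zero, not_le]
    exact hpos
  have h14 : ENNReal.ofReal ((ε * U / 2) ^ 2) *
      volume {u : ℝ | U ≤ u ∧ u ≤ U + 1 ∧ ε < |f u|} ≤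
      ENNReal.ofReal ((ε * U / 2) ^ 2) * ENNReal.ofReal (Real.exp (-(k0 / 4 * s))) := by
    rw [← ENNReal.ofReal_mul hpos.le]
    exact hcheb.trans (ENNReal.ofReal_le_ofReal hfin)
  exact (ENNReal.mul_le_mul_iff_right hne ENNReal.ofReal_ne_top).1 h14

end Pool.Agent.W263.SP
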