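import Pool.Agent.W263.SP.Rem
import Pool.Agent.W263.SP.SetU
import Pool.Agent.W263.MS.Exc

/-! Sparse exceptional sets under the Riemann hypothesis: the abstract theorem. -/

set_option autoImplicit false

namespace Pool.Agent.W263.SP

open MeasureTheory Filter Topology Set Classical
open Pool.Agent.W263.BSD Pool.Agent.W263.EP Pool.Agent.W263.MN Pool.Agent.W263.LG
open Pool.Agent.W263.MS Pool.Agent.W263.HI
open Pool.Agent.H341R2 (NormSys)
open scoped ENNReal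

variable {S : NormSys} {Bs : Finset S.X} {tr : S.X → ℕ → ℝ} {ω : ℝ} {D : ℝ} {F : ℂ → ℂ}
  {L : ℝ} {n : ℤ}

/-- **Theorem.** On the Riemann hypothesis and polynomial growth the remainder is small outside of a
very sparse set. -/
theorem sparse_u (E : TData S (tn S (Bs : Set S.X) tr ω) D)
    (hF : IsFull S (Bs : Set S.X) tr ω F)
    (hd : ∀ s : ℂ, (ω + 1) / 2 - 1 < s.re → DifferentiableAt ℂ F s)
    (hn : meromorphicOrderAt F (((ω + 1) / 2 : ℝ) : ℂ) = n) (hL : CLim ((ω + 1) / 2) F n L)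
    (hg : ∃ (C : ℝ) (A : ℕ), ∀ s : ℂ, (ω + 1) / 2 - 1 < s.re → ‖F s‖ ≤ C * (1 + ‖s‖) ^ A) :
    (∃ κ C1 : ℝ, 0 < κ ∧ 0 < C1 ∧ ∀ᶠ U : ℝ in atTop, ∀ ε : ℝ,
      C1 * Real.log U ^ 3 / U ≤ ε →
      volume {u : ℝ | U ≤ u ∧ u ≤ U + 1 ∧
        ε < |rem (ap S (tn S (Bs : Set S.X) tr ω)) n L 0 u|} ≤
        ENNReal.ofReal (Real.exp (-(κ * √(ε * (U / Real.log U)))))) ∧
    ∃ C : ℝ, 0 ≤ C ∧ ∀ᶠ u : ℝ in atTop,
      |rem (ap S (tn S (Bs : Set S.X) tr ω)) n L 1 u| ≤ C * (1 + Real.log u) ^ 3 := by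
  have hsq := ms_of_RH E hF hd hn hL hg
  have P := pair E
  obtain ⟨C, A, hC⟩ := hg
  have hcre : ((((ω + 1) / 2 : ℝ)) : ℂ).re = (ω + 1) / 2 := Complex.ofReal_re _
  have hA : AnalyticAt ℂ F (((ω + 1) / 2 : ℝ) : ℂ) := by
    refine Complex.analyticAt_iff_eventually_differentiableAt.mpr ?_
    filter_upwards [(isOpen_half ((ω + 1) / 2 - 1)).mem_nhds
      (show (ω + 1) / 2 - 1 < ((((ω + 1) / 2 : ℝ)) : ℂ).re by rw [hcre]; linarith)] with z hz
      using hd z hz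
  have hm : MeromorphicAt F (((ω + 1) / 2 : ℝ) : ℂ) := hA.meromorphicAt
  obtain ⟨⟨C1, hC1⟩, C2, hC2⟩ := growth_rem E hF hm hn hL ⟨C, A, fun s hs => hC s (by linarith)⟩
  have hlow := lower_rem (S := S) (k := 1) (K := C1) (ρ := n) (L := L)
    (hC1.mono fun x hx => (abs_le.mp hx).1)
  have hconv := conv_of_rem (dataP E hF.isCont) hlow
  set a := ap S (tn S (Bs : Set S.X) tr ω) with ha
  set φ : ℝ → ℝ := rem a n L 0 with hφ
  have hφm : Measurable φ := rem_meas P.am 0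
  have W0 : WSq φ := wsq_of_sq hsq
  have I0 : ∀ w > 0, LInt φ w := fun w hw => LInt_of_sq hφm W0 hw
  -- the functions
  set f : ℂ → ℂ := fun w => F (((ω : ℂ) + 1) / 2 + w) with hf
  have hreadd : ∀ w : ℂ, (((ω : ℂ) + 1) / 2 + w).re = (ω + 1) / 2 + w.re := fun w => by
    rw [Complex.add_re, ← c_cast, Complex.ofReal_re]
  have hLd : ∀ w : ℂ, 0 < w.re → HasDerivAt (Lam S (Bs : Set S.X) tr ω) (deriv f w / f w) w :=
    fun w hw => Lam_deriv E hF hconv hw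
  obtain ⟨m, hm0, hmlow⟩ := LF_low E
  have hfd : ∀ w : ℂ, -1 < w.re → DifferentiableAt ℂ f w := fun w hw => by
    have h1 := hd (((ω : ℂ) + 1) / 2 + w) (by rw [hreadd]; linarith)
    exact DifferentiableAt.comp (g := F) w h1 (by fun_prop)
  have hf0 : ∀ w : ℂ, 0 < w.re → f w ≠ 0 :=
    fun w hw => hF.2.1 _ (by rw [hreadd]; linarith)
  obtain ⟨K, hK0, hK⟩ := loc (f := f)
    (C := |C| * (1 + ‖((ω : ℂ) + 1) / 2‖) ^ A) (A := A) hm0 hfd hf0
    (fun w hw => by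
      have h1 := hC (((ω : ℂ) + 1) / 2 + w) (by rw [hreadd]; linarith)
      refine h1.trans ?_
      have h2 : 1 + ‖((ω : ℂ) + 1) / 2 + w‖ ≤ (1 + ‖((ω : ℂ) + 1) / 2‖) * (1 + ‖w‖) := by
        have := norm_add_le (((ω : ℂ) + 1) / 2) w
        have : 0 ≤ ‖((ω : ℂ) + 1) / 2‖ * ‖w‖ := by positivity
        linarith
      calc C * (1 + ‖((ω : ℂ) + 1) / 2 + w‖) ^ A ≤ |C| * (1 + ‖((ω : ℂ) + 1) / 2 + w‖) ^ A :=
            mul_le_mul_of_nonneg_right (le_abs_self C) (by positivity)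
        _ ≤ |C| * ((1 + ‖((ω : ℂ) + 1) / 2‖) * (1 + ‖w‖)) ^ A := by gcongr
        _ = _ := by rw [mul_pow]; ring)
    (fun w hw => by
      have h1 := hmlow (((ω : ℂ) + 1) / 2 + w) (by rw [hreadd, hw])
      rw [← hF.2.2 (((ω : ℂ) + 1) / 2 + w) (by rw [hreadd, hw]; linarith)] at h1
      exact h1)
  have hDL : ∀ w : ℂ, 0 < w.re → DifferentiableAt ℂ (fun w => deriv f w / f w) w := by
    intro w hw
    have h1 : AnalyticOnNhd ℂ f {w : ℂ | -1 < w.re} :=
      DifferentiableOn.analyticOnNhd (fun z hz => (hfd z hz).differentiableWithinAt) (isOpen_half _)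
    exact ((h1 w (show -1 < w.re by linarith)).deriv.differentiableAt).div
      (hfd w (by linarith)) (hf0 w hw)
  -- near the centre
  obtain ⟨δ, hδ, M, hM⟩ := near_centre (c := (ω + 1) / 2) (G := F) hm hn
    (fun s hs => hd s (by linarith)) (fun s _ => rfl)
  have hnear : ∀ w : ℂ, 0 < w.re → ‖w‖ < δ →
      ‖deriv f w / f w - (((n : ℝ)) : ℂ) / w‖ ≤ M := by
    intro z hz hzδ
    have h1 := hM (((ω : ℂ) + 1) / 2 + z) (by rw [hreadd]; linarith) (by
      rw [c_cast, add_sub_cancel_left]; exact hzδ)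
    rw [c_cast, add_sub_cancel_left] at h1
    have h2 : deriv f z = deriv F (((ω : ℂ) + 1) / 2 + z) := by
      rw [hf]
      exact deriv_comp_const_add _ _ _
    rw [h2, Complex.ofReal_intCast]
    exact h1
  set Λ : ℂ → ℂ := Lam S (Bs : Set S.X) tr ω with hΛ
  have hΛd : ∀ w : ℂ, 0 < w.re → DifferentiableAt ℂ Λ w := fun w hw => (hLd w hw).differentiableAt
  have hid : ∀ w : ℂ, 0 < w.re → lapC φ w = gg Λ n L w / w := fun w hw =>
    ident E hΛd (fun _ _ => rfl) W0 hw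
  have hgd : ∀ w : ℂ, 0 < w.re →
      HasDerivAt (gg Λ n L) (deriv f w / f w - (((n : ℝ)) : ℂ) / w) w := by
    intro w hw
    have h1 := (hLd w hw).sub
      ((Complex.hasDerivAt_log (Or.inl hw)).const_mul (((n : ℝ) : ℂ)))
    have h2 := h1.sub_const (L : ℂ)
    refine h2.congr_deriv ?_
    rw [div_eq_mul_inv (((n : ℝ)) : ℂ) w]
  obtain ⟨CL, hCL, hlowb⟩ := low (n := (n : ℝ)) hφm I0 hid hgd hK0 hK hδ hnear hDL
  obtain ⟨CH, hCH, hhigh⟩ := high (n := (n : ℝ)) hφm I0 W0 hid hgd hK0 hK hDL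
  -- the second primitive
  have h2 : ∀ᶠ u : ℝ in atTop, |EP.intU (EP.intU φ) u| ≤ C2 * u := by
    filter_upwards [ev_exp hC2, eventually_gt_atTop 0] with u h1 hu
    have e1 : EP.intU (EP.intU φ) u = EP.intU (rem a n L 1) u := by
      unfold EP.intU
      refine setIntegral_congr_fun measurableSet_Ioc fun v hv => ?_
      exact rem_intU P.am P.al 0 hv.1
    rw [e1, rem_intU P.am P.al 1 hu, ha, rem_MK 2 hu, abs_mul, abs_of_nonneg (pk_nonneg _ hu.le)]
    rw [Real.log_exp] at h1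
    have e2 : pk 2 u = u ^ 2 / 2 := by unfold pk; norm_num
    rw [e2]
    have h3 : 0 ≤ C2 / u := (abs_nonneg _).trans h1
    calc u ^ 2 / 2 * |MK S (Bs : Set S.X) tr ω 2 (Real.exp u) - mt n L 2 (Real.exp u)| ≤
        u ^ 2 / 2 * (C2 / u) := by gcongr
      _ = C2 / u * (u ^ 2 / 2) := by ring
      _ ≤ C2 / u * u ^ 2 := by
        refine mul_le_mul_of_nonneg_left ?_ h3
        have := sq_nonneg u
        linarith
      _ = C2 * u := by field_simp
  obtain ⟨Cm, hCm⟩ : ∃ Cm : ℝ, Cm = max CL CH := ⟨_, rfl⟩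
  have hCm1 : CL ≤ Cm := by rw [hCm]; exact le_max_left _ _
  have hCm2 : CH ≤ Cm := by rw [hCm]; exact le_max_right _ _
  have hCm0 : 0 ≤ Cm := hCL.trans hCm1
  have hlow' : ∀ T : ℝ, 2 ≤ T → ∀ u : ℝ, 1 ≤ u →
      |EL φ T u| ≤ Cm * Real.log T ^ 2 * (1 + Real.log u) := by
    intro T hT u hu
    refine (hlowb T hT u hu).trans ?_
    have hlu : 0 ≤ Real.log u := Real.log_nonneg hu
    rw [mul_assoc, mul_assoc]
    exact mul_le_mul_of_nonneg_right hCm1 (by positivity)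
  have hhigh' : ∀ T : ℝ, 2 ≤ T → ∀ U : ℝ, 1 ≤ U →
      ∫⁻ u in Icc U (U + 1), ENNReal.ofReal ((EE φ u - EL φ T u) ^ 2) ≤
        ENNReal.ofReal (Cm * U ^ 4 / T ^ (1 / 2 : ℝ)) := by
    intro T hT U hU
    refine (hhigh T hT U hU).trans (ENNReal.ofReal_le_ofReal ?_)
    have hT0 : 0 < T := by linarith
    gcongr
  obtain ⟨Cr, hCr, hr⟩ := r_bound hφm I0 hCm0 hlow' hhigh' h2
  refine ⟨?_, Cr, hCr, ?_⟩
  swap
  · filter_upwards [hr, eventually_gt_atTop 0] with u h1 hu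
    rw [← rem_intU P.am P.al 0 hu]
    exact h1
  have hm1 : Cm ≤ max Cm Cr := le_max_left _ _
  have hm3 : Cr ≤ max Cm Cr := le_max_right _ _
  refine set_uniform (f := φ) (r := EP.intU φ) (E := EE φ) (EL := EL φ) (C := max Cm Cr)
    (hCm0.trans hm1) (EE_meas hφm) (fun T => EL_meas hφm T) (fun u _ => rfl)
    ?_ (fun T hT u hu => ?_) (fun T hT U hU => ?_)
  · filter_upwards [hr, eventually_ge_atTop 1] with u h1 hu
    have hlu : 0 ≤ Real.log u := Real.log_nonneg hu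
    exact h1.trans (mul_le_mul_of_nonneg_right hm3 (by positivity))
  · refine (hlow' T hT u hu).trans ?_
    have hlu : 0 ≤ Real.log u := Real.log_nonneg hu
    rw [mul_assoc, mul_assoc]
    exact mul_le_mul_of_nonneg_right hm1 (by positivity)
  · refine (hhigh' T hT U hU).trans (ENNReal.ofReal_le_ofReal ?_)
    have hT0 : 0 < T := by linarith
    gcongr

end Pool.Agent.W263.SP
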