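import Pool.Agent.W263.SP.Abs
import Pool.Agent.W263.MS.EQFinal

/-! Sparse exceptional sets for elliptic curves. -/

set_option autoImplicit false

namespace Pool.Agent.W263.SP

open MeasureTheory Filter Topology Set Classical
open Pool.Agent.W263.BSD Pool.Agent.W263.EP Pool.Agent.W263.MN Pool.Agent.W263.LG
open Pool.Agent.W263.MS
open Pool.Agent.H341R2 (NormSys)
open scoped ENNReal

/-- `g(x) → 0` outside of sparse sets: there are `κ, C > 0` such that for all large `X` and all `ε` with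
`ε ≥ C (log log X)^3 / log X` the measure of the set of the `x` in `[X, 2X]` with `|g(x)| > ε` is
at most `X exp (-κ (ε log X / log log X)^(1/2))`. -/
def SparseLaw (g : ℝ → ℝ) : Prop :=
  ∃ κ C : ℝ, 0 < κ ∧ 0 < C ∧ ∀ᶠ X : ℝ in atTop, ∀ ε : ℝ,
    C * Real.log (Real.log X) ^ 3 / Real.log X ≤ ε →
    volume {x : ℝ | X ≤ x ∧ x ≤ 2 * X ∧ ε < |g x|} ≤
      ENNReal.ofReal (X * Real.exp (-(κ * √(ε * (Real.log X / Real.log (Real.log X))))))

/-- `Q(x) ~ A (log x)^ρ` outside of sparse sets. -/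
def Sparse (Q : ℝ → ℝ) (ρ A : ℝ) : Prop :=
  SparseLaw fun x => Real.log (Q x / (A * (Real.log x) ^ ρ))

theorem s_large (c : ℝ) : ∀ᶠ U : ℝ in atTop, ∀ ε : ℝ, Real.log U ^ 3 / U ≤ ε →
    c ≤ √(ε * (U / Real.log U)) := by
  filter_upwards [Real.tendsto_log_atTop.eventually_ge_atTop c, eventually_gt_atTop 1]
    with U hU hU1 ε hε
  have hU0 : 0 < U := by linarith
  have hl : 0 < Real.log U := Real.log_pos hU1
  refine hU.trans (Real.le_sqrt_of_sq_le ?_)
  rw [← mul_div_assoc, le_div_iff₀ hl]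
  rw [div_le_iff₀ hU0] at hε
  calc Real.log U ^ 2 * Real.log U = Real.log U ^ 3 := by ring
    _ ≤ _ := hε

theorem thr_small (C : ℝ) {ε : ℝ} (hε : 0 < ε) :
    ∀ᶠ U : ℝ in atTop, C * Real.log U ^ 3 / U ≤ ε := by
  have h1 : Tendsto (fun U : ℝ => C * (Real.log U ^ 3 / U)) atTop (𝓝 (C * 0)) :=
    ((Real.isLittleO_pow_log_id_atTop (n := 3)).tendsto_div_nhds_zero).const_mul C
  rw [mul_zero] at h1
  filter_upwards [h1.eventually (gt_mem_nhds hε)] with U hU
  rw [mul_div_assoc]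
  exact le_of_lt hU

/-- for fixed `ε` the exceptional set has small density -/
theorem SparseLaw.small {g : ℝ → ℝ} (h : SparseLaw g) {ε c : ℝ} (hε : 0 < ε)
    (hc : 0 < c) : ∀ᶠ X : ℝ in atTop,
      volume {x : ℝ | X ≤ x ∧ x ≤ 2 * X ∧ ε < |g x|} ≤ ENNReal.ofReal (c * X) := by
  obtain ⟨κ, C, hκ, hC, h1⟩ := h
  have s1 := Real.tendsto_log_atTop.eventually (thr_small C hε)
  have s2 := Real.tendsto_log_atTop.eventually (thr_small 1 hε)
  have s3 := Real.tendsto_log_atTop.eventually (s_large (-(Real.log c) / κ))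
  filter_upwards [h1, s1, s2, s3, eventually_gt_atTop 0] with X b1 b2 b3 b4 hX
  refine (b1 ε b2).trans (ENNReal.ofReal_le_ofReal ?_)
  rw [one_mul] at b3
  have h5 := b4 ε b3
  rw [mul_comm]
  refine mul_le_mul_of_nonneg_right ?_ hX.le
  rw [← Real.log_le_log_iff (Real.exp_pos _) hc, Real.log_exp]
  rw [div_le_iff₀ hκ] at h5
  linarith

variable {a b : ℤ} {F : ℂ → ℂ} {Q : ℝ → ℝ} {κ : ℝ}

theorem SparseLaw.common {g g' : ℝ → ℝ} (h : SparseLaw g) (h' : SparseLaw g') (n : ℕ) :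
    ∃ x : ℝ, (n : ℝ) ≤ x ∧ 1 < x ∧ |g x| ≤ 1 / ((n : ℝ) + 1) ∧ |g' x| ≤ 1 / ((n : ℝ) + 1) := by
  set ε : ℝ := 1 / ((n : ℝ) + 1) with hε
  have hε0 : 0 < ε := by rw [hε]; positivity
  have h1 := h.small hε0 (show (0 : ℝ) < 1 / 4 by norm_num)
  have h2 := h'.small hε0 (show (0 : ℝ) < 1 / 4 by norm_num)
  obtain ⟨X, ⟨b1, b2⟩, hX⟩ := ((h1.and h2).and (eventually_gt_atTop (max (n : ℝ) 1))).exists
  have hXn : (n : ℝ) < X := (le_max_left _ _).trans_lt hX
  have hX1 : 1 < X := (le_max_right _ _).trans_lt hX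
  have hX0 : 0 < X := by linarith
  by_contra hcon
  push Not at hcon
  have hsub : Icc X (2 * X) ⊆ {x : ℝ | X ≤ x ∧ x ≤ 2 * X ∧ ε < |g x|} ∪
      {x : ℝ | X ≤ x ∧ x ≤ 2 * X ∧ ε < |g' x|} := by
    intro x hx
    by_cases h3 : |g x| ≤ ε
    · right
      exact ⟨hx.1, hx.2, hcon x (hXn.le.trans hx.1) (hX1.trans_le hx.1) h3⟩
    · left
      exact ⟨hx.1, hx.2, not_le.mp h3⟩
  have h4 := (measure_mono (μ := volume) hsub).trans (measure_union_le _ _)
  rw [Real.volume_Icc] at h4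
  have h5 := h4.trans (add_le_add b1 b2)
  rw [← ENNReal.ofReal_add (by positivity) (by positivity),
    ENNReal.ofReal_le_ofReal_iff (by positivity)] at h5
  linarith

theorem sparse_unique {ρ ρ' A A' : ℝ} (hQ : ∀ x, 1 < x → 0 < Q x) (hA : 0 < A) (hA' : 0 < A')
    (h : Sparse Q ρ A) (h' : Sparse Q ρ' A') : ρ = ρ' ∧ A = A' := by
  choose x hx hx1 hxa hxb using fun n : ℕ => SparseLaw.common h h' n
  have hxt : Tendsto x atTop atTop := tendsto_atTop_mono hx tendsto_natCast_atTop_atTop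
  have hz : Tendsto (fun n : ℕ => 1 / ((n : ℝ) + 1)) atTop (𝓝 0) :=
    tendsto_one_div_add_atTop_nhds_zero_nat
  have conv : ∀ (ρ A : ℝ), 0 < A → (∀ n, |Real.log (Q (x n) / (A * (Real.log (x n)) ^ ρ))| ≤
      1 / ((n : ℝ) + 1)) → Tendsto (fun y => -Real.log (Q y) -
        LG.mt ρ (ρ * Real.eulerMascheroniConstant - Real.log A) 0 y)
        (map x atTop) (𝓝 0) := by
    intro ρ A hA hb
    rw [tendsto_map'_iff]
    refine squeeze_zero_norm (fun n => ?_) hz
    refine le_trans (le_of_eq ?_) (hb n)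
    have hl : 0 < Real.log (x n) := Real.log_pos (hx1 n)
    have hQx := hQ _ (hx1 n)
    simp only [Function.comp, Real.norm_eq_abs]
    rw [Real.log_div hQx.ne' (by positivity), Real.log_mul hA.ne' (by positivity),
      Real.log_rpow hl, ← abs_neg]
    congr 1
    unfold LG.mt
    rw [harmonic_zero]
    push_cast
    ring
  have hle : map x atTop ≤ atTop := hxt
  obtain ⟨h1, h2⟩ := main_unique hle (conv ρ A hA hxa) (conv ρ' A' hA' hxb)
  refine ⟨h1, ?_⟩
  subst h1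
  have h3 : Real.log A = Real.log A' := by linarith
  exact Real.log_injOn_pos (mem_Ioi.mpr hA) (mem_Ioi.mpr hA') h3

/-- **From `u = log x` to `x`.** -/
theorem law_of_u {φ : ℝ → ℝ} (hφm : Measurable φ)
    (h : ∃ κ C1 : ℝ, 0 < κ ∧ 0 < C1 ∧ ∀ᶠ U : ℝ in atTop, ∀ ε : ℝ,
      C1 * Real.log U ^ 3 / U ≤ ε →
      volume {u : ℝ | U ≤ u ∧ u ≤ U + 1 ∧ ε < |φ u|} ≤
        ENNReal.ofReal (Real.exp (-(κ * √(ε * (U / Real.log U))))))
    {g : ℝ → ℝ} {C : ℝ}
    (hg : ∀ᶠ x : ℝ in atTop, |g x| ≤ |φ (Real.log x)| +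
      C * (1 + Real.log (Real.log x)) ^ 3 / Real.log x) : SparseLaw g := by
  obtain ⟨κ', C1, hκ', hC1, hb⟩ := h
  refine ⟨κ' / 4, 2 * C1 + 54 * |C| + 1, by positivity, by positivity, ?_⟩
  obtain ⟨X1, hX1⟩ := eventually_atTop.mp hg
  have s1 := Real.tendsto_log_atTop.eventually hb
  have s2 := Real.tendsto_log_atTop.eventually (s_large (4 / κ' * Real.log 3))
  filter_upwards [s1, s2, eventually_gt_atTop 1, eventually_ge_atTop X1,
    eventually_ge_atTop (Real.exp 3)] with X b1 b2 hX hXX hXe ε hε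
  set U : ℝ := Real.log X with hU
  have hX0 : 0 < X := by linarith
  have hUpos : 0 < U := Real.log_pos hX
  have hU3 : 3 ≤ U := by
    have : Real.log (Real.exp 3) ≤ U := Real.log_le_log (Real.exp_pos _) hXe
    rwa [Real.log_exp] at this
  have hlU1 : 1 ≤ Real.log U := by
    rw [Real.le_log_iff_exp_le hUpos]
    linarith [Real.exp_one_lt_d9]
  have hlU : 0 < Real.log U := by linarith
  have hl3 : 1 ≤ Real.log U ^ 3 := one_le_pow₀ hlU1
  have heU : Real.exp U = X := Real.exp_log hX0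
  have hεs : (2 * C1 + 54 * |C| + 1) * Real.log U ^ 3 ≤ ε * U := by rwa [div_le_iff₀ hUpos] at hε
  have hε0 : 0 < ε := lt_of_lt_of_le (by positivity) hε
  have hCl : 0 ≤ |C| * Real.log U ^ 3 := by positivity
  have hC1l : 0 ≤ C1 * Real.log U ^ 3 := by positivity
  have h1ε : Real.log U ^ 3 / U ≤ ε := by
    rw [div_le_iff₀ hUpos]
    linarith
  have hC1ε : C1 * Real.log U ^ 3 / U ≤ ε / 2 := by
    rw [div_le_iff₀ hUpos]
    linarith
  have hCε : |C| * (27 * Real.log U ^ 3) / U ≤ ε / 2 := by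
    rw [div_le_iff₀ hUpos]
    linarith
  set W : Set ℝ := {u : ℝ | U ≤ u ∧ u ≤ U + 1 ∧ ε / 2 < |φ u|} with hW
  have hWm : MeasurableSet W := by
    rw [hW]
    exact (measurableSet_Ici).inter ((measurableSet_Iic).inter
      (measurableSet_lt measurable_const hφm.abs))
  have hsub : {x : ℝ | X ≤ x ∧ x ≤ 2 * X ∧ ε < |g x|} ⊆ Real.exp '' W := by
    rintro x ⟨h1, h2, h3⟩
    have hx1 : 1 < x := lt_of_lt_of_le hX h1
    have hx0 : 0 < x := by linarith
    refine ⟨Real.log x, ⟨Real.log_le_log hX0 h1, ?_, ?_⟩, Real.exp_log hx0⟩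
    · have h4 := Real.log_le_log hx0 h2
      rw [Real.log_mul (by norm_num) hX0.ne'] at h4
      have h5 : Real.log 2 ≤ 1 := by
        have := Real.log_two_lt_d9
        linarith
      linarith
    · have h4 : U ≤ Real.log x := Real.log_le_log hX0 h1
      have h5 := hX1 x (hXX.trans h1)
      have hu1 : Real.log x ≤ U ^ 2 := by
        have h4' := Real.log_le_log hx0 h2
        rw [Real.log_mul (by norm_num) hX0.ne'] at h4'
        have := Real.log_two_lt_d9
        nlinarith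
      have hu2 : Real.log (Real.log x) ≤ 2 * Real.log U := by
        have := Real.log_le_log (by linarith) hu1
        rwa [Real.log_pow, Nat.cast_ofNat] at this
      have hu3 : 0 ≤ Real.log (Real.log x) := Real.log_nonneg (by linarith)
      have hlx0 : 0 < Real.log x := by linarith
      have h6 : C * (1 + Real.log (Real.log x)) ^ 3 / Real.log x ≤ ε / 2 := by
        refine le_trans ?_ hCε
        calc C * (1 + Real.log (Real.log x)) ^ 3 / Real.log x ≤
            |C| * (3 * Real.log U) ^ 3 / Real.log x := by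
              gcongr
              · exact le_abs_self C
              · linarith
          _ ≤ |C| * (3 * Real.log U) ^ 3 / U := by gcongr
          _ = _ := by ring
      linarith
  refine (measure_mono hsub).trans ?_
  have hcov := lintegral_image_eq_lintegral_abs_deriv_mul (s := W) (f := Real.exp)
    (f' := Real.exp) hWm (fun x _ => (Real.hasDerivAt_exp x).hasDerivWithinAt)
    Real.exp_injective.injOn (fun _ => 1)
  rw [lintegral_one, Measure.restrict_apply_univ] at hcov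
  rw [hcov]
  set s : ℝ := √(ε * (U / Real.log U)) with hs
  have hs0 : 0 ≤ s := Real.sqrt_nonneg _
  have hs2 : s / 2 ≤ √(ε / 2 * (U / Real.log U)) := by
    refine Real.le_sqrt_of_sq_le ?_
    rw [div_pow, hs, Real.sq_sqrt (by positivity)]
    have : 0 ≤ ε * (U / Real.log U) := by positivity
    linarith
  calc ∫⁻ u in W, ENNReal.ofReal |Real.exp u| * 1 ≤ ∫⁻ u in W, ENNReal.ofReal (3 * X) := by
        refine setLIntegral_mono' hWm fun u hu => ?_
        rw [mul_one, abs_of_pos (Real.exp_pos u)]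
        refine ENNReal.ofReal_le_ofReal ?_
        have h1 : Real.exp u ≤ Real.exp (U + 1) := Real.exp_le_exp.mpr hu.2.1
        rw [Real.exp_add, heU] at h1
        have h2 := Real.exp_one_lt_d9
        nlinarith
    _ = ENNReal.ofReal (3 * X) * volume W := by
        rw [setLIntegral_const]
    _ ≤ ENNReal.ofReal (3 * X) *
        ENNReal.ofReal (Real.exp (-(κ' * √(ε / 2 * (U / Real.log U))))) :=
        mul_le_mul' le_rfl (b1 (ε / 2) hC1ε)
    _ ≤ _ := by
        rw [← ENNReal.ofReal_mul (by positivity)]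
        refine ENNReal.ofReal_le_ofReal ?_
        have h1 : Real.exp (-(κ' * √(ε / 2 * (U / Real.log U)))) ≤
            Real.exp (-(κ' / 4 * s)) * Real.exp (-(κ' / 4 * s)) := by
          rw [← Real.exp_add]
          refine Real.exp_le_exp.mpr ?_
          have := mul_le_mul_of_nonneg_left hs2 hκ'.le
          linarith
        have h2 : Real.exp (-(κ' / 4 * s)) ≤ 1 / 3 := by
          have h3 := b2 ε h1ε
          have h4 : Real.log 3 ≤ κ' / 4 * s := by
            calc Real.log 3 = κ' / 4 * (4 / κ' * Real.log 3) := by field_simp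
              _ ≤ κ' / 4 * s := by gcongr
          rw [Real.exp_neg, inv_eq_one_div]
          refine one_div_le_one_div_of_le (by norm_num) ?_
          rwa [← Real.log_le_iff_le_exp (by norm_num)]
        calc 3 * X * Real.exp (-(κ' * √(ε / 2 * (U / Real.log U)))) ≤
            3 * X * (Real.exp (-(κ' / 4 * s)) * Real.exp (-(κ' / 4 * s))) := by gcongr
          _ ≤ 3 * X * (1 / 3 * Real.exp (-(κ' / 4 * s))) := by gcongr
          _ = _ := by ring

/-- **Conversion.** -/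
theorem sparse_conv {Bs : Finset Nat.Primes} (hBs : ∀ p : Nat.Primes, p ∈ Bs ↔ ¬ GoodPrime a b (p : ℕ))
    (hQ : QData a b Q κ) (ρ : ℝ) {A : ℝ} (hA0 : 0 < A)
    (h : ∃ κ' C1 : ℝ, 0 < κ' ∧ 0 < C1 ∧ ∀ᶠ U : ℝ in atTop, ∀ ε : ℝ,
      C1 * Real.log U ^ 3 / U ≤ ε →
      volume {u : ℝ | U ≤ u ∧ u ≤ U + 1 ∧
        ε < |rem (ap sysQ (tn sysQ (Bs : Set Nat.Primes) (abTr (AA a b)) 1)) ρ
          (κ - Real.log A + ρ * Real.eulerMascheroniConstant) 0 u|} ≤
        ENNReal.ofReal (Real.exp (-(κ' * √(ε * (U / Real.log U)))))) :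
    Sparse Q ρ A := by
  have E := eq_tdata hBs
  have P := pair E
  obtain ⟨hpos, _, C, hC⟩ := hQ
  set L' : ℝ := κ - Real.log A + ρ * Real.eulerMascheroniConstant with hL'
  refine law_of_u (rem_meas P.am 0) h (C := |C|) ?_
  filter_upwards [hC, eventually_ge_atTop (Real.exp 1)] with x h1 hx
  have hx1 : 1 < x := lt_of_lt_of_le (Real.one_lt_exp_iff.mpr one_pos) hx
  have hx0 : 0 < x := by linarith
  have hlx : 1 ≤ Real.log x := by rwa [Real.le_log_iff_exp_le hx0]
  have hlx0 : 0 < Real.log x := by linarith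
  have hQx := hpos x hx1
  have h2 : MK sysQ (Bs : Set Nat.Primes) (abTr (AA a b)) 1 0 x - mt ρ L' 0 x = _ :=
    (rem_zero_eq hx1).symm
  rw [MK_EQ hBs] at h2
  have h4 : mt ρ L' 0 x = L' - ρ * (Real.log (Real.log x) + Real.eulerMascheroniConstant) := by
    unfold LG.mt
    rw [harmonic_zero]
    push_cast
    ring
  rw [← h2, h4, hL']
  have e1 : Real.log (Q x / (A * Real.log x ^ ρ)) =
      (Real.log (Q x) + logMean a b 0 x - κ) - (logMean a b 0 x - (κ - Real.log A +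
        ρ * Real.eulerMascheroniConstant - ρ * (Real.log (Real.log x) +
          Real.eulerMascheroniConstant))) := by
    rw [Real.log_div hQx.ne' (by positivity), Real.log_mul hA0.ne' (by positivity),
      Real.log_rpow hlx0]
    ring
  rw [e1]
  refine (abs_sub _ _).trans ?_
  have h5 : C / Real.log x ≤ |C| * (1 + Real.log (Real.log x)) ^ 3 / Real.log x := by
    have h6 : (1 : ℝ) ≤ (1 + Real.log (Real.log x)) ^ 3 :=
      one_le_pow₀ (by linarith [Real.log_nonneg hlx])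
    gcongr
    calc C ≤ |C| := le_abs_self C
      _ ≤ _ := le_mul_of_one_le_right (abs_nonneg C) h6
  linarith

/-- `V(x) = (log x)⁻¹ ∑_{p^j ≤ x, p ∤ 2Δ, j ≥ 1} (α_p^j + β_p^j) log p / p^j` -/
noncomputable def primeAverage (a b : ℤ) (x : ℝ) : ℝ :=
  primePowerMean a b 0 x / Real.log x

/-- **The theorem for elliptic curves over `ℚ`.** -/
theorem eq_sparse (hΔ : 4 * a ^ 3 + 27 * b ^ 2 ≠ 0) (hF : IsLSeries a b F) {r : ℕ}
    (hr : analyticOrderAt F 1 = r)
    (hg : ∃ (C : ℝ) (A : ℕ), ∀ s : ℂ, 0 < s.re → ‖F s‖ ≤ C * (1 + ‖s‖) ^ A)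
    (hQ : QData a b Q κ) (ρ : ℝ) {A : ℝ} (hA0 : 0 < A) :
    ((∀ s : ℂ, 1 < s.re → F s ≠ 0) ∧ (r : ℝ) = ρ ∧
        A = Real.exp κ * Real.exp (ρ * Real.eulerMascheroniConstant) / leadAbs F r) ↔
      (∃ k : ℕ, ∀ ε : ℝ, 0 < ε → ∀ᶠ x : ℝ in atTop, productMean a b k x ≤ x ^ ε) ∧
        Sparse Q ρ A := by
  have hsub := (eq_first hΔ hF hr (by
    obtain ⟨C, A, hC⟩ := hg; exact ⟨C, A, fun s hs => hC s (by linarith)⟩) 0).2.2
  have hfin := bad_finite hΔ
  obtain ⟨Bs, hBs⟩ : ∃ Bs : Finset Nat.Primes, ∀ p : Nat.Primes,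
      p ∈ Bs ↔ ¬ GoodPrime a b (p : ℕ) := ⟨hfin.toFinset, fun p => by
    rw [Set.Finite.mem_toFinset]; rfl⟩
  have E := eq_tdata hBs
  have e1 : ((1 : ℝ) + 1) / 2 = 1 := by norm_num
  have e2 : ((1 : ℝ) + 2) / 2 = 3 / 2 := by norm_num
  have ec : ((((1 : ℝ) + 1) / 2 : ℝ) : ℂ) = 1 := by rw [e1, Complex.ofReal_one]
  have he : ∀ s : ℂ, ((1 : ℝ) + 2) / 2 < s.re → F s = Pool.Agent.W263.EP.LF
      Pool.Agent.W263.EP.sysQ (Bs : Set Nat.Primes) (Pool.Agent.W263.EP.abTr (AA a b)) s := by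
    intro s hs
    rw [e2] at hs
    rw [LFB_EQ hBs hF hs]
    exact LFB_one (S := Pool.Agent.W263.EP.sysQ) (Bs := Bs) s
  have hA : AnalyticAt ℂ F ((((1 : ℝ) + 1) / 2 : ℝ) : ℂ) := hF.1.analyticAt _
  have hA1 : AnalyticAt ℂ F ((1 : ℝ) : ℂ) := hF.1.analyticAt _
  have hn : meromorphicOrderAt F ((((1 : ℝ) + 1) / 2 : ℝ) : ℂ) = ((r : ℤ) : WithTop ℤ) := by
    rw [hA.meromorphicOrderAt_eq, ec, hr]; rfl
  obtain ⟨hpos, hlead⟩ := lead_limit_at hA1 (r := r) (by rw [Complex.ofReal_one]; exact hr)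
  rw [Complex.ofReal_one] at hpos hlead
  have hLA : 0 < leadAbs F r := hpos
  have hL : CLim (((1 : ℝ) + 1) / 2) F ((r : ℤ) : ℝ) (Real.log (leadAbs F r)) := by
    refine clim_of_lead hLA ?_
    rw [e1]
    refine hlead.congr fun s => ?_
    rw [Int.cast_natCast, Real.rpow_natCast]
  have hmain : (∀ s : ℂ, 1 < s.re → F s ≠ 0) → ∀ A : ℝ, 0 < A →
      A = Real.exp κ * Real.exp ((r : ℝ) * Real.eulerMascheroniConstant) / leadAbs F r →
      Sparse Q r A := by
    intro hRH A hA0 hAe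
    have hc := (const_iff hLA hA0 κ (r : ℝ)).mpr hAe
    refine sparse_conv hBs hQ (r : ℝ) hA0 ?_
    have hfull : IsFull Pool.Agent.W263.EP.sysQ (Bs : Set Nat.Primes)
        (Pool.Agent.W263.EP.abTr (AA a b)) 1 F :=
      ⟨fun s _ => (hF.1 s).differentiableWithinAt, fun s hs => hRH s (by rw [e1] at hs; exact hs), he⟩
    have h1 := (sparse_u E hfull (fun s _ => hF.1 s) hn hL
      (by obtain ⟨C, A, hC⟩ := hg; exact ⟨C, A, fun s hs => hC s (by rw [e1] at hs; linarith)⟩)).1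
    rw [Int.cast_natCast, hc] at h1
    exact h1
  constructor
  · rintro ⟨h1, h2, h3⟩
    subst h2
    exact ⟨hsub.mp h1, hmain h1 A hA0 h3⟩
  · rintro ⟨h1, h2⟩
    have hRH := hsub.mpr h1
    set A1 : ℝ := Real.exp κ * Real.exp ((r : ℝ) * Real.eulerMascheroniConstant) / leadAbs F r
      with hA1'
    have hA10 : 0 < A1 := by rw [hA1']; positivity
    obtain ⟨h3, h4⟩ := sparse_unique hQ.pos hA10 hA0 (hmain hRH A1 hA10 rfl) h2
    refine ⟨hRH, h3, ?_⟩
    rw [← h4, hA1', h3]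

end Pool.Agent.W263.SP
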