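import Pool.Agent.W263.SP.Fin

/-! Sparse exceptional sets: the general theorems. -/

set_option autoImplicit false

namespace Pool.Agent.W263.SP

open MeasureTheory Filter Topology Set Classical
open Pool.Agent.W263.BSD Pool.Agent.W263.EP Pool.Agent.W263.MN Pool.Agent.W263.LG
open Pool.Agent.W263.MS
open Pool.Agent.H341R2 (NormSys)
open scoped ENNReal

variable {S : NormSys} {Bs : Finset S.X} {tr : S.X → ℕ → ℝ} {ω : ℝ} {D : ℝ} {F : ℂ → ℂ}
  {L : ℝ} {n : ℤ}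

/-- the law depends only on the values at large `x` -/
theorem SparseLaw.congr {g g' : ℝ → ℝ} (h : ∀ᶠ x : ℝ in atTop, g x = g' x) :
    SparseLaw g ↔ SparseLaw g' := by
  have key : ∀ g g' : ℝ → ℝ, (∀ᶠ x : ℝ in atTop, g x = g' x) → SparseLaw g → SparseLaw g' := by
    rintro g g' h ⟨κ, C, hκ, hC, h1⟩
    refine ⟨κ, C, hκ, hC, ?_⟩
    obtain ⟨X0, hX0⟩ := eventually_atTop.mp h
    filter_upwards [h1, eventually_ge_atTop X0] with X h2 hX ε hε
    have e : {x : ℝ | X ≤ x ∧ x ≤ 2 * X ∧ ε < |g' x|} =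
        {x : ℝ | X ≤ x ∧ x ≤ 2 * X ∧ ε < |g x|} := by
      ext x
      constructor
      · rintro ⟨a, b, c⟩
        exact ⟨a, b, by rw [hX0 x (hX.trans a)]; exact c⟩
      · rintro ⟨a, b, c⟩
        exact ⟨a, b, by rw [← hX0 x (hX.trans a)]; exact c⟩
    rw [e]
    exact h2 ε hε
  exact ⟨key g g' h, key g' g (h.mono fun x hx => hx.symm)⟩

/-- on the Riemann hypothesis both laws hold -/
theorem gen_laws (E : TData S (tn S (Bs : Set S.X) tr ω) D)
    (hF : IsFull S (Bs : Set S.X) tr ω F)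
    (hd : ∀ s : ℂ, (ω + 1) / 2 - 1 < s.re → DifferentiableAt ℂ F s)
    (hn : meromorphicOrderAt F (((ω + 1) / 2 : ℝ) : ℂ) = n) (hL : CLim ((ω + 1) / 2) F n L)
    (hg : ∃ (C : ℝ) (A : ℕ), ∀ s : ℂ, (ω + 1) / 2 - 1 < s.re → ‖F s‖ ≤ C * (1 + ‖s‖) ^ A) :
    SparseLaw (fun x => MK S (Bs : Set S.X) tr ω 0 x - mt n L 0 x) ∧
      SparseLaw (fun x => MK S (Bs : Set S.X) tr ω 0 x - MK S (Bs : Set S.X) tr ω 1 x + n) := by
  have P := pair E
  obtain ⟨h1, C, hC0, hC⟩ := sparse_u E hF hd hn hL hg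
  constructor
  · refine law_of_u (rem_meas P.am 0) h1 (C := 0) ?_
    filter_upwards [eventually_gt_atTop 1] with x hx
    rw [← rem_zero_eq hx]
    simp
  · refine law_of_u (rem_meas P.am 0) h1 (C := C) ?_
    filter_upwards [eventually_gt_atTop 1, Real.tendsto_log_atTop.eventually hC] with x hx h2
    have hl : 0 < Real.log x := Real.log_pos hx
    have h0 : _ = MK S (Bs : Set S.X) tr ω 0 x - mt n L 0 x :=
      rem_zero_eq (S := S) (bad := (Bs : Set S.X)) (tr := tr) (ω := ω) (ρ := n) (L := L) hx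
    have h3 := rem_MK (S := S) (bad := (Bs : Set S.X)) (tr := tr) (ω := ω) (ρ := n) (L := L) 1 hl
    have e1 : pk 1 (Real.log x) = Real.log x := by unfold pk; norm_num
    rw [e1, Real.exp_log (by linarith)] at h3
    have e2 : MK S (Bs : Set S.X) tr ω 0 x - MK S (Bs : Set S.X) tr ω 1 x + n =
        rem (ap S (tn S (Bs : Set S.X) tr ω)) n L 0 (Real.log x) -
        rem (ap S (tn S (Bs : Set S.X) tr ω)) n L 1 (Real.log x) / Real.log x := by
      rw [h0, h3, mul_div_cancel_left₀ _ hl.ne']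
      unfold LG.mt
      rw [harmonic_zero, harmonic_succ, harmonic_zero]
      push_cast
      ring
    rw [e2]
    refine (abs_sub _ _).trans ?_
    gcongr
    rw [abs_div, abs_of_pos hl]
    exact div_le_div_of_nonneg_right h2 hl.le

theorem lead_unique {m : ℝ → ℝ} {ρ ρ' L L' : ℝ} (h : SparseLaw fun x => m x - mt ρ L 0 x)
    (h' : SparseLaw fun x => m x - mt ρ' L' 0 x) : ρ = ρ' ∧ L = L' := by
  choose x hx hx1 hxa hxb using fun n : ℕ => SparseLaw.common h h' n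
  have hxt : Tendsto x atTop atTop := tendsto_atTop_mono hx tendsto_natCast_atTop_atTop
  have hz : Tendsto (fun n : ℕ => 1 / ((n : ℝ) + 1)) atTop (𝓝 0) :=
    tendsto_one_div_add_atTop_nhds_zero_nat
  have hle : map x atTop ≤ atTop := hxt
  refine main_unique (m := m) hle ?_ ?_
  · rw [tendsto_map'_iff]
    exact squeeze_zero_norm (fun n => hxa n) hz
  · rw [tendsto_map'_iff]
    exact squeeze_zero_norm (fun n => hxb n) hz

section Thm

variable (E : TData S (tn S (Bs : Set S.X) tr ω) D)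
    (hd : ∀ s : ℂ, (ω + 1) / 2 - 1 < s.re → DifferentiableAt ℂ F s)
    (he : ∀ s : ℂ, (ω + 2) / 2 < s.re → F s = LF S (Bs : Set S.X) tr s)
    (hn : meromorphicOrderAt F (((ω + 1) / 2 : ℝ) : ℂ) = n) (hL : CLim ((ω + 1) / 2) F n L)
    (hg : ∃ (C : ℝ) (A : ℕ), ∀ s : ℂ, (ω + 1) / 2 - 1 < s.re → ‖F s‖ ≤ C * (1 + ‖s‖) ^ A)
include E hd he hn hL hg

theorem gen_rh : (∀ s : ℂ, (ω + 1) / 2 < s.re → F s ≠ 0) ↔
    ∃ K : ℝ, ∀ᶠ x : ℝ in atTop,
      RK S (Bs : Set S.X) tr ω 1 x ≤ K * Real.log (Real.log x) := by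
  have hA : AnalyticAt ℂ F (((ω + 1) / 2 : ℝ) : ℂ) := by
    refine Complex.analyticAt_iff_eventually_differentiableAt.mpr ?_
    filter_upwards [(isOpen_half ((ω + 1) / 2 - 1)).mem_nhds
      (show (ω + 1) / 2 - 1 < ((((ω + 1) / 2 : ℝ)) : ℂ).re by
        rw [Complex.ofReal_re]; linarith)] with z hz using hd z hz
  have h := (growth_means E (fun s hs => hd s (by linarith)) he hA.meromorphicAt hn hL
    (by obtain ⟨C, A, hC⟩ := hg; exact ⟨C, A, fun s hs => hC s (by linarith)⟩)).out 0 1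
  rw [h, RK_upper_iff E (k := 1)]

theorem gen_full (h : ∀ s : ℂ, (ω + 1) / 2 < s.re → F s ≠ 0) :
    SparseLaw (fun x => MK S (Bs : Set S.X) tr ω 0 x - mt n L 0 x) ∧
      SparseLaw (fun x => MK S (Bs : Set S.X) tr ω 0 x - MK S (Bs : Set S.X) tr ω 1 x + n) :=
  gen_laws E ⟨fun s hs => (hd s (by
        have hs' : (ω + 1) / 2 < s.re := hs
        linarith)).differentiableWithinAt, h, he⟩ hd hn hL hg

/-- **Theorem (order).** -/
theorem gen_avg (ρ : ℝ) : ((∀ s : ℂ, (ω + 1) / 2 < s.re → F s ≠ 0) ∧ (n : ℝ) = ρ) ↔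
    (∃ K : ℝ, ∀ᶠ x : ℝ in atTop,
      RK S (Bs : Set S.X) tr ω 1 x ≤ K * Real.log (Real.log x)) ∧
    SparseLaw (fun x => MK S (Bs : Set S.X) tr ω 0 x - MK S (Bs : Set S.X) tr ω 1 x + ρ) := by
  have h0 := gen_rh E hd he hn hL hg
  constructor
  · rintro ⟨h1, h2⟩
    subst h2
    exact ⟨h0.mp h1, (gen_full E hd he hn hL hg h1).2⟩
  · rintro ⟨h1, h2⟩
    have hRH := h0.mpr h1
    have h3 := (gen_full E hd he hn hL hg hRH).2
    refine ⟨hRH, ?_⟩
    by_contra hne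
    have hpos' : 0 < |(n : ℝ) - ρ| := abs_pos.mpr (sub_ne_zero.mpr hne)
    obtain ⟨m, hm⟩ := exists_nat_one_div_lt (show 0 < |(n : ℝ) - ρ| / 2 by positivity)
    obtain ⟨x, _, _, h4, h5⟩ := SparseLaw.common h3 h2 m
    have h6 : |(n : ℝ) - ρ| ≤
        |MK S (Bs : Set S.X) tr ω 0 x - MK S (Bs : Set S.X) tr ω 1 x + n| +
        |MK S (Bs : Set S.X) tr ω 0 x - MK S (Bs : Set S.X) tr ω 1 x + ρ| := by
      have e : (n : ℝ) - ρ = (MK S (Bs : Set S.X) tr ω 0 x - MK S (Bs : Set S.X) tr ω 1 x + n) -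
        (MK S (Bs : Set S.X) tr ω 0 x - MK S (Bs : Set S.X) tr ω 1 x + ρ) := by ring
      rw [e]
      exact abs_sub _ _
    linarith

/-- **Theorem (leading coefficient).** -/
theorem gen_lead (ρ L' : ℝ) :
    ((∀ s : ℂ, (ω + 1) / 2 < s.re → F s ≠ 0) ∧ (n : ℝ) = ρ ∧ L = L') ↔
    (∃ K : ℝ, ∀ᶠ x : ℝ in atTop,
      RK S (Bs : Set S.X) tr ω 1 x ≤ K * Real.log (Real.log x)) ∧
    SparseLaw (fun x => MK S (Bs : Set S.X) tr ω 0 x - mt ρ L' 0 x) := by
  have h0 := gen_rh E hd he hn hL hg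
  constructor
  · rintro ⟨h1, h2, h3⟩
    subst h2
    subst h3
    exact ⟨h0.mp h1, (gen_full E hd he hn hL hg h1).1⟩
  · rintro ⟨h1, h2⟩
    have hRH := h0.mpr h1
    have h3 := (gen_full E hd he hn hL hg hRH).1
    exact ⟨hRH, lead_unique h3 h2⟩

end Thm

end Pool.Agent.W263.SP
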