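import Pool.Agent.W263.SP.Low

/-! The high part. -/

set_option autoImplicit false

namespace Pool.Agent.W263.SP

open MeasureTheory Filter Topology Set Classical
open Pool.Agent.W263.BSD Pool.Agent.W263.EP Pool.Agent.W263.MN Pool.Agent.W263.LG
open Pool.Agent.W263.MS Pool.Agent.W263.HI
open scoped ENNReal

variable {f h : ℝ → ℝ} {g DL : ℂ → ℂ} {n K M δ : ℝ}

theorem wsq_of_exp (hb : ∀ σ : ℝ, 0 < σ → ∃ C : ℝ, ∀ u, 0 < u → |h u| ≤ C * Real.exp (σ * u)) :
    WSq h := by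
  intro σ hσ
  obtain ⟨C, hC⟩ := hb (σ / 2) (by positivity)
  have h2 : IntegrableOn (fun u : ℝ => C ^ 2 * Real.exp (-σ * u)) (Ioi 0) :=
    (exp_neg_integrableOn_Ioi 0 hσ).const_mul _
  refine lt_of_le_of_lt (setLIntegral_mono' measurableSet_Ioi fun u hu => ?_) h2.lintegral_lt_top
  have hu0 : (0 : ℝ) < u := hu
  refine ENNReal.ofReal_le_ofReal ?_
  have h4 : |h u * Real.exp (-(σ * u))| ≤ C * Real.exp (-(σ / 2 * u)) := by
    rw [abs_mul, abs_of_pos (Real.exp_pos _)]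
    calc |h u| * Real.exp (-(σ * u)) ≤ C * Real.exp (σ / 2 * u) * Real.exp (-(σ * u)) :=
          mul_le_mul_of_nonneg_right (hC u hu0) (Real.exp_pos _).le
      _ = C * (Real.exp (σ / 2 * u) * Real.exp (-(σ * u))) := by ring
      _ = _ := by
        rw [← Real.exp_add]
        congr 2
        ring
  calc (h u * Real.exp (-(σ * u))) ^ 2 = |h u * Real.exp (-(σ * u))| ^ 2 := (sq_abs _).symm
    _ ≤ (C * Real.exp (-(σ / 2 * u))) ^ 2 := pow_le_pow_left₀ (abs_nonneg _) h4 2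
    _ = _ := by
      rw [mul_pow, ← Real.exp_nat_mul]
      congr 2
      push_cast
      ring

theorem intU_exp (hf : Measurable f) (hI : ∀ w > 0, LInt f w) {σ : ℝ} (hσ : 0 < σ) :
    ∃ C : ℝ, 0 ≤ C ∧ ∀ u, |EP.intU f u| ≤ C * Real.exp (σ * u) := by
  have hi : IntegrableOn (fun v => |f v * Real.exp (-(σ * v))|) (Ioi 0) := (hI σ hσ).abs
  refine ⟨∫ v in Ioi (0 : ℝ), |f v * Real.exp (-(σ * v))|,
    integral_nonneg fun v => abs_nonneg _, fun u => ?_⟩
  have hC0 : 0 ≤ ∫ v in Ioi (0 : ℝ), |f v * Real.exp (-(σ * v))| :=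
    integral_nonneg fun v => abs_nonneg _
  rcases le_or_gt u 0 with hu | hu
  · rw [EP.intU_nonpos hu, abs_zero]
    positivity
  · have hl : IntegrableOn f (Ioc 0 u) := b_integrable hf hI u
    have hi' : IntegrableOn (fun v => |f v * Real.exp (-(σ * v))|) (Ioc 0 u) :=
      hi.mono_set Ioc_subset_Ioi_self
    calc |EP.intU f u| ≤ ∫ v in Ioc 0 u, |f v| := by
          unfold EP.intU
          exact abs_integral_le_integral_abs
      _ ≤ ∫ v in Ioc 0 u, |f v * Real.exp (-(σ * v))| * Real.exp (σ * u) := by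
          refine setIntegral_mono_on hl.abs (hi'.mul_const _) measurableSet_Ioc fun v hv => ?_
          rw [abs_mul, abs_of_pos (Real.exp_pos _), mul_assoc, ← Real.exp_add]
          refine le_mul_of_one_le_right (abs_nonneg _) (Real.one_le_exp ?_)
          have := mul_le_mul_of_nonneg_left hv.2 hσ.le
          linarith
      _ = (∫ v in Ioc 0 u, |f v * Real.exp (-(σ * v))|) * Real.exp (σ * u) := integral_mul_const _ _
      _ ≤ _ := by
          refine mul_le_mul_of_nonneg_right ?_ (Real.exp_pos _).le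
          exact setIntegral_mono_set hi (Eventually.of_forall fun v => abs_nonneg _)
            (Ioc_subset_Ioi_self.eventuallyLE)

theorem wsq_add {a b : ℝ → ℝ} (ha : Measurable a) (h1 : WSq a) (h2 : WSq b) :
    WSq (fun u => a u + b u) := by
  intro σ hσ
  have k1 := h1 σ hσ
  have k2 := h2 σ hσ
  have h3 : ∫⁻ u in Ioi (0 : ℝ), ENNReal.ofReal (((a u + b u) * Real.exp (-(σ * u))) ^ 2) ≤
      ∫⁻ u in Ioi (0 : ℝ), (2 * ENNReal.ofReal ((a u * Real.exp (-(σ * u))) ^ 2) +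
        2 * ENNReal.ofReal ((b u * Real.exp (-(σ * u))) ^ 2)) := by
    refine lintegral_mono fun u => ?_
    have e2 : (2 : ℝ≥0∞) = ENNReal.ofReal 2 := by norm_num
    rw [e2, ← ENNReal.ofReal_mul (by norm_num), ← ENNReal.ofReal_mul (by norm_num),
      ← ENNReal.ofReal_add (by positivity) (by positivity)]
    refine ENNReal.ofReal_le_ofReal ?_
    nlinarith [sq_nonneg (a u * Real.exp (-(σ * u)) - b u * Real.exp (-(σ * u)))]
  refine lt_of_le_of_lt h3 ?_
  rw [lintegral_add_left (by fun_prop), lintegral_const_mul' _ _ (by norm_num),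
    lintegral_const_mul' _ _ (by norm_num)]
  exact ENNReal.add_lt_top.mpr ⟨ENNReal.mul_lt_top (by norm_num) k1,
    ENNReal.mul_lt_top (by norm_num) k2⟩

theorem wsq_id_mul (h1 : WSq f) : WSq (fun u => u * f u) := by
  intro σ hσ
  have k1 := h1 (σ / 2) (by positivity)
  have h3 : ∫⁻ u in Ioi (0 : ℝ), ENNReal.ofReal ((u * f u * Real.exp (-(σ * u))) ^ 2) ≤
      ∫⁻ u in Ioi (0 : ℝ), ENNReal.ofReal ((2 / σ) ^ 2) *
        ENNReal.ofReal ((f u * Real.exp (-(σ / 2 * u))) ^ 2) := by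
    refine setLIntegral_mono' measurableSet_Ioi fun u hu => ?_
    have hu0 : (0 : ℝ) < u := hu
    rw [← ENNReal.ofReal_mul (by positivity)]
    refine ENNReal.ofReal_le_ofReal ?_
    have e1 : Real.exp (-(σ * u)) = Real.exp (-(σ / 2 * u)) * Real.exp (-(σ / 2 * u)) := by
      rw [← Real.exp_add]; congr 1; ring
    have e2 : u * Real.exp (-(σ / 2 * u)) ≤ 2 / σ := by
      have h4 := Real.add_one_le_exp (σ / 2 * u)
      have h5 : u ≤ 2 / σ * Real.exp (σ / 2 * u) := by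
        rw [div_mul_eq_mul_div, le_div_iff₀ hσ]
        linarith
      calc u * Real.exp (-(σ / 2 * u)) ≤ 2 / σ * Real.exp (σ / 2 * u) * Real.exp (-(σ / 2 * u)) :=
            mul_le_mul_of_nonneg_right h5 (Real.exp_pos _).le
        _ = 2 / σ * (Real.exp (σ / 2 * u) * Real.exp (-(σ / 2 * u))) := by ring
        _ = _ := by rw [← Real.exp_add, add_neg_cancel, Real.exp_zero, mul_one]
    have e3 : u * f u * Real.exp (-(σ * u)) =
        (u * Real.exp (-(σ / 2 * u))) * (f u * Real.exp (-(σ / 2 * u))) := by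
      rw [e1]; ring
    rw [e3, mul_pow]
    refine mul_le_mul_of_nonneg_right ?_ (sq_nonneg _)
    exact pow_le_pow_left₀ (by positivity) e2 2
  refine lt_of_le_of_lt h3 ?_
  rw [lintegral_const_mul' _ _ ENNReal.ofReal_ne_top]
  exact ENNReal.mul_lt_top ENNReal.ofReal_lt_top k1

/-- the high part has finite weighted squares -/
theorem wsq_high (hf : Measurable f) (hI : ∀ w > 0, LInt f w) (hW : WSq f) {T : ℝ} (hT : 0 < T) :
    WSq (fun u => EE f u - EL f T u) := by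
  have h1 := wsq_id_mul hW
  have hE := EE_meas hf
  have hIE : ∀ w > 0, LInt (EE f) w := fun w hw => EE_LInt hf hI hw
  have h2 : WSq (fun u => -EP.intU f u - EL f T u) := by
    refine wsq_of_exp fun σ hσ => ?_
    obtain ⟨C1, hC1, h3⟩ := intU_exp hf hI hσ
    obtain ⟨C2, hC2, h4⟩ := intU_exp hE hIE hσ
    refine ⟨C1 + T * (C2 + C2), fun u hu => ?_⟩
    have h5 := h3 u
    have h6 := h4 u
    have h7 := h4 (u - 1 / T)
    have h8 : Real.exp (σ * (u - 1 / T)) ≤ Real.exp (σ * u) := by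
      refine Real.exp_le_exp.mpr ?_
      have : 0 < 1 / T := by positivity
      nlinarith
    have h9 : |EP.intU (EE f) (u - 1 / T)| ≤ C2 * Real.exp (σ * u) :=
      h7.trans (mul_le_mul_of_nonneg_left h8 hC2)
    unfold EL
    calc |-EP.intU f u - T * (EP.intU (EE f) u - EP.intU (EE f) (u - 1 / T))| ≤
        |-EP.intU f u| + |T * (EP.intU (EE f) u - EP.intU (EE f) (u - 1 / T))| := abs_sub _ _
      _ ≤ |EP.intU f u| + T * (|EP.intU (EE f) u| + |EP.intU (EE f) (u - 1 / T)|) := by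
          rw [abs_neg, abs_mul, abs_of_pos hT]
          gcongr
          exact abs_sub _ _
      _ ≤ C1 * Real.exp (σ * u) + T * (C2 * Real.exp (σ * u) + C2 * Real.exp (σ * u)) := by
          gcongr
      _ = _ := by ring
  have h3 := wsq_add (a := fun u => u * f u) (measurable_id.mul hf) h1 h2
  refine wsq_congr (fun u _ => ?_) h3
  unfold EE
  ring

theorem high_lap (hf : Measurable f) (hI : ∀ w > 0, LInt f w)
    (hg : ∀ w : ℂ, 0 < w.re → lapC f w = g w / w)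
    (hgd : ∀ w : ℂ, 0 < w.re → HasDerivAt g (DL w - n / w) w) {T : ℝ} (hT : 0 < T) {w : ℂ}
    (hw : 0 < w.re) :
    lapC (fun u => EE f u - EL f T u) w = -((DL w - n / w) / w) * (1 - kk (w / T)) := by
  have h1 := (EE_LInt hf hI hw)
  have h2 := (EL_LInt hf hI hT hw)
  have c1 : IntegrableOn (fun u : ℝ => ((EE f u : ℝ) : ℂ) * Complex.exp (-(w * u))) (Ioi 0) :=
    h1.complex (EE_meas hf)
  have c2 : IntegrableOn (fun u : ℝ => ((EL f T u : ℝ) : ℂ) * Complex.exp (-(w * u))) (Ioi 0) :=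
    h2.complex (EL_meas hf T)
  have e1 : lapC (fun u => EE f u - EL f T u) w = lapC (EE f) w - lapC (EL f T) w := by
    unfold lapC
    rw [← integral_sub c1 c2]
    refine integral_congr_ae (Eventually.of_forall fun u => ?_)
    simp only []
    push_cast
    ring
  rw [e1, EE_lap hf hI hg hgd hw, EL_lap hf hI hg hgd hT hw]
  ring

/-- **The high part.** -/
theorem high (hf : Measurable f) (hI : ∀ w > 0, LInt f w) (hW : WSq f)
    (hg : ∀ w : ℂ, 0 < w.re → lapC f w = g w / w)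
    (hgd : ∀ w : ℂ, 0 < w.re → HasDerivAt g (DL w - n / w) w)
    (hK : 0 ≤ K) (hloc : LocalBound DL K)
    (hDL : ∀ w : ℂ, 0 < w.re → DifferentiableAt ℂ DL w) :
    ∃ C : ℝ, 0 ≤ C ∧ ∀ T : ℝ, 2 ≤ T → ∀ U : ℝ, 1 ≤ U →
      ∫⁻ u in Icc U (U + 1), ENNReal.ofReal ((EE f u - EL f T u) ^ 2) ≤
        ENNReal.ofReal (C * U ^ 4 / T ^ (1 / 2 : ℝ)) := by
  have hint : Integrable fun y : ℝ => (1 + |y|) ^ (-(5 / 4 : ℝ)) := by
    have h1 := integrable_one_add_norm (E := ℝ) (μ := volume) (r := 5 / 4)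
      (by rw [Module.finrank_self]; norm_num)
    exact h1
  set I0 : ℝ := ∫ y : ℝ, (1 + |y|) ^ (-(5 / 4 : ℝ)) with hI0
  have hI00 : 0 ≤ I0 := integral_nonneg fun y => by positivity
  set B : ℝ := 32 * K + |n| with hB
  have hB0 : 0 ≤ B := by positivity
  refine ⟨Real.exp 4 * (36 * B ^ 2 * I0), by positivity, fun T hT U hU => ?_⟩
  have hT0 : 0 < T := by linarith
  have hU0 : 0 < U := by linarith
  set σ : ℝ := 1 / U with hσ
  have hσ0 : 0 < σ := by positivity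
  have hσ1 : σ ≤ 1 := by rw [hσ, div_le_one hU0]; exact hU
  set h : ℝ → ℝ := fun u => EE f u - EL f T u with hh
  have hm : Measurable h := (EE_meas hf).sub (EL_meas hf T)
  have hre : ∀ y : ℝ, ((σ : ℂ) + y * Complex.I).re = σ := fun y => by simp
  have him : ∀ y : ℝ, ((σ : ℂ) + y * Complex.I).im = y := fun y => by simp
  have hd : ∀ w : ℂ, 0 < w.re → DifferentiableAt ℂ
      (fun w => -((DL w - n / w) / w) * (1 - kk (w / T))) w := by
    intro w hw
    have hwn : w ≠ 0 := w_ne hw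
    exact (((hDL w hw).sub ((differentiableAt_const _).div differentiableAt_id hwn)).div
      differentiableAt_id hwn).neg.mul ((differentiableAt_const _).sub (kk_diff hw hT0))
  have hcont : Continuous fun y : ℝ => lapC h ((σ : ℂ) + y * Complex.I) := by
    refine (line_cont hd hσ0).congr fun y => ?_
    exact (high_lap hf hI hg hgd hT0 (by rw [hre]; exact hσ0)).symm
  have hpl := plancherel_eq hm (wsq_high hf hI hW hT0) hσ0 hcont
  -- bound of the transform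
  have hbd : ∀ y : ℝ, ‖lapC h ((σ : ℂ) + y * Complex.I)‖ ^ 2 ≤
      36 * B ^ 2 * U ^ 4 / T ^ (1 / 2 : ℝ) * (1 + |y|) ^ (-(5 / 4 : ℝ)) := by
    intro y
    set w : ℂ := (σ : ℂ) + y * Complex.I with hw
    have hwre : w.re = σ := hre y
    have hwim : w.im = y := him y
    have hw0 : 0 < w.re := by rw [hwre]; exact hσ0
    have hn : 0 < ‖w‖ := hw0.trans_le (re_le w)
    have hs : 0 < 1 + |y| := by positivity
    rw [hh, high_lap hf hI hg hgd hT0 hw0, norm_mul, norm_neg, norm_div, mul_pow, div_pow]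
    have h1 : ‖DL w - n / w‖ ^ 2 ≤ B ^ 2 * (1 + |y|) ^ (1 / 4 : ℝ) * U ^ 2 := by
      have h2 := D_le (n := n) hK hloc hw0 (by rw [hwre]; exact hσ1)
      rw [hwre, hwim, hσ, one_div_one_div] at h2
      refine (pow_le_pow_left₀ (norm_nonneg _) h2 2).trans (le_of_eq ?_)
      rw [mul_pow, mul_pow, ← Real.rpow_natCast ((1 + |y|) ^ (1 / 8 : ℝ)) 2,
        ← Real.rpow_mul hs.le, hB]
      norm_num
    have h2 : ‖1 - kk (w / T)‖ ^ 2 ≤ 9 * (‖w‖ ^ (1 / 2 : ℝ) / T ^ (1 / 2 : ℝ)) := by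
      have h3 : (0 : ℝ) < (w / T).re := by
        rw [Complex.div_ofReal_re]; positivity
      have h4 := one_sub_kk_le h3
      rw [norm_div, Complex.norm_real, Real.norm_of_nonneg hT0.le,
        Real.div_rpow hn.le hT0.le] at h4
      exact h4
    have h3 : ‖w‖ ^ (1 / 2 : ℝ) / ‖w‖ ^ 2 ≤ 4 * U ^ 2 * (1 + |y|) ^ (-(3 / 2 : ℝ)) := by
      have e1 : ‖w‖ ^ (1 / 2 : ℝ) / ‖w‖ ^ 2 = ‖w‖ ^ (-(3 / 2 : ℝ)) := by
        rw [← Real.rpow_natCast, ← Real.rpow_sub hn]
        norm_num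
      have h4 := one_add_le hσ0 (hwre.ge : σ ≤ w.re)
      rw [hwim, hσ, one_div_one_div] at h4
      have h5 : (1 + |y|) / (2 * U) ≤ ‖w‖ := by
        rw [div_le_iff₀ (by positivity)]
        refine h4.trans (mul_le_mul_of_nonneg_left (by linarith) hn.le)
      have h6 : ‖w‖ ^ (-(3 / 2 : ℝ)) ≤ ((1 + |y|) / (2 * U)) ^ (-(3 / 2 : ℝ)) :=
        Real.rpow_le_rpow_of_nonpos (by positivity) h5 (by norm_num)
      have h7 : ((1 + |y|) / (2 * U)) ^ (-(3 / 2 : ℝ)) =
          (1 + |y|) ^ (-(3 / 2 : ℝ)) * (2 * U) ^ (3 / 2 : ℝ) := by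
        rw [Real.div_rpow hs.le (by positivity), Real.rpow_neg (by positivity : 0 ≤ 2 * U),
          div_inv_eq_mul]
      have h8 : (2 * U) ^ (3 / 2 : ℝ) ≤ (2 * U) ^ (2 : ℝ) :=
        Real.rpow_le_rpow_of_exponent_le (by linarith) (by norm_num)
      have h9 : (2 * U) ^ (2 : ℝ) = 4 * U ^ 2 := by
        rw [Real.rpow_two]; ring
      rw [e1]
      calc ‖w‖ ^ (-(3 / 2 : ℝ)) ≤ (1 + |y|) ^ (-(3 / 2 : ℝ)) * (2 * U) ^ (3 / 2 : ℝ) := by
            rw [← h7]; exact h6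
        _ ≤ (1 + |y|) ^ (-(3 / 2 : ℝ)) * (4 * U ^ 2) := by
            rw [← h9]
            gcongr
        _ = _ := by ring
    have h4 : (1 + |y|) ^ (1 / 4 : ℝ) * (1 + |y|) ^ (-(3 / 2 : ℝ)) = (1 + |y|) ^ (-(5 / 4 : ℝ)) := by
      rw [← Real.rpow_add hs]
      norm_num
    have hTr : 0 < T ^ (1 / 2 : ℝ) := by positivity
    calc ‖DL w - n / w‖ ^ 2 / ‖w‖ ^ 2 * ‖1 - kk (w / T)‖ ^ 2 ≤
        (B ^ 2 * (1 + |y|) ^ (1 / 4 : ℝ) * U ^ 2) / ‖w‖ ^ 2 *
          (9 * (‖w‖ ^ (1 / 2 : ℝ) / T ^ (1 / 2 : ℝ))) := by gcongr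
      _ = 9 * B ^ 2 * U ^ 2 / T ^ (1 / 2 : ℝ) * (1 + |y|) ^ (1 / 4 : ℝ) *
          (‖w‖ ^ (1 / 2 : ℝ) / ‖w‖ ^ 2) := by ring
      _ ≤ 9 * B ^ 2 * U ^ 2 / T ^ (1 / 2 : ℝ) * (1 + |y|) ^ (1 / 4 : ℝ) *
          (4 * U ^ 2 * (1 + |y|) ^ (-(3 / 2 : ℝ))) := by gcongr
      _ = 36 * B ^ 2 * U ^ 4 / T ^ (1 / 2 : ℝ) *
          ((1 + |y|) ^ (1 / 4 : ℝ) * (1 + |y|) ^ (-(3 / 2 : ℝ))) := by ring
      _ = _ := by rw [h4]
  have h1 : ∫⁻ y : ℝ, ENNReal.ofReal (‖lapC h ((σ : ℂ) + y * Complex.I)‖ ^ 2) ≤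
      ENNReal.ofReal (36 * B ^ 2 * U ^ 4 / T ^ (1 / 2 : ℝ) * I0) := by
    refine (lintegral_mono fun y => ENNReal.ofReal_le_ofReal (hbd y)).trans ?_
    rw [← ofReal_integral_eq_lintegral_ofReal (hint.const_mul _)
      (Eventually.of_forall fun y => by positivity), integral_const_mul]
  have h2 : ∫⁻ u in Ioi (0 : ℝ), ENNReal.ofReal ((h u * Real.exp (-(σ * u))) ^ 2) ≤
      ENNReal.ofReal (36 * B ^ 2 * U ^ 4 / T ^ (1 / 2 : ℝ) * I0) := by
    refine le_trans ?_ h1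
    rw [hpl]
    have h3 : (1 : ℝ≥0∞) ≤ ENNReal.ofReal (2 * Real.pi) := by
      rw [ENNReal.one_le_ofReal]
      linarith [Real.pi_gt_three]
    calc _ = 1 * ∫⁻ u in Ioi (0 : ℝ), ENNReal.ofReal ((h u * Real.exp (-(σ * u))) ^ 2) :=
          (one_mul _).symm
      _ ≤ _ := mul_le_mul' h3 le_rfl
  calc ∫⁻ u in Icc U (U + 1), ENNReal.ofReal (h u ^ 2) ≤
      ∫⁻ u in Icc U (U + 1), ENNReal.ofReal (Real.exp 4) *
        ENNReal.ofReal ((h u * Real.exp (-(σ * u))) ^ 2) := by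
        refine setLIntegral_mono' measurableSet_Icc fun u hu => ?_
        rw [← ENNReal.ofReal_mul (Real.exp_pos _).le]
        refine ENNReal.ofReal_le_ofReal ?_
        rw [mul_pow, ← Real.exp_nat_mul]
        have e1 : Real.exp 4 * (h u ^ 2 * Real.exp ((2 : ℕ) * -(σ * u))) =
            h u ^ 2 * Real.exp (4 - 2 * (σ * u)) := by
          rw [show (4 : ℝ) - 2 * (σ * u) = 4 + (2 : ℕ) * -(σ * u) by push_cast; ring, Real.exp_add]
          ring
        rw [e1]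
        refine le_mul_of_one_le_right (sq_nonneg _) (Real.one_le_exp ?_)
        have h3 : σ * u ≤ 2 := by
          rw [hσ, div_mul_eq_mul_div, one_mul, div_le_iff₀ hU0]
          linarith [hu.2]
        linarith
    _ = ENNReal.ofReal (Real.exp 4) *
        ∫⁻ u in Icc U (U + 1), ENNReal.ofReal ((h u * Real.exp (-(σ * u))) ^ 2) :=
        lintegral_const_mul' _ _ ENNReal.ofReal_ne_top
    _ ≤ ENNReal.ofReal (Real.exp 4) *
        ∫⁻ u in Ioi (0 : ℝ), ENNReal.ofReal ((h u * Real.exp (-(σ * u))) ^ 2) := by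
        refine mul_le_mul' le_rfl (lintegral_mono_set fun u hu => ?_)
        exact lt_of_lt_of_le hU0 hu.1
    _ ≤ ENNReal.ofReal (Real.exp 4) *
        ENNReal.ofReal (36 * B ^ 2 * U ^ 4 / T ^ (1 / 2 : ℝ) * I0) := mul_le_mul' le_rfl h2
    _ = _ := by
        rw [← ENNReal.ofReal_mul (Real.exp_pos _).le]
        congr 1
        ring

end Pool.Agent.W263.SP
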