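import Mathlib

/-! Statements of the parts of the project SP. -/

set_option autoImplicit false

namespace Pool.Agent.W263.SP

open MeasureTheory Set

/-- local bound of `D` by the distances to few points of the closed left half plane -/
def LocalBound (D : ℂ → ℂ) (K : ℝ) : Prop :=
  ∀ y0 : ℝ, ∃ (n : ℕ) (ρ : Fin n → ℂ), (n : ℝ) ≤ K * Real.log (2 + |y0|) ∧ (∀ i, (ρ i).re ≤ 0) ∧
    ∀ w : ℂ, 0 < w.re → w.re ≤ 1 → |w.im - y0| ≤ 1 / 2 →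
      ‖D w‖ ≤ K * Real.log (2 + |y0|) + ∑ i, 1 / ‖w - ρ i‖

/-- bound of the window integrals of `|D|` -/
def WindowBound (D : ℂ → ℂ) (K : ℝ) : Prop :=
  ∀ σ : ℝ, 0 < σ → σ ≤ 1 → ∀ y0 : ℝ,
    ∫⁻ y in Icc (y0 - 1 / 2) (y0 + 1 / 2), ENNReal.ofReal ‖D ((σ : ℂ) + y * Complex.I)‖ ≤
      ENNReal.ofReal (K * Real.log (2 + |y0|) * (1 + Real.log (1 / σ)))

/-- part WIN -/
def WIN : Prop := ∀ (D : ℂ → ℂ) (K : ℝ), 0 ≤ K → LocalBound D K → ∃ K' : ℝ, 0 ≤ K' ∧ WindowBound D K'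

/-- part LIN -/
def LIN : Prop := ∀ (D : ℂ → ℂ) (K M δ n : ℝ), 0 ≤ K → 0 < δ →
  (∀ σ : ℝ, 0 < σ → Continuous fun y : ℝ => D ((σ : ℂ) + y * Complex.I)) →
  WindowBound D K →
  (∀ w : ℂ, 0 < w.re → ‖w‖ < δ → ‖D w - n / w‖ ≤ M) →
  ∃ C : ℝ, 0 ≤ C ∧ ∀ σ : ℝ, 0 < σ → σ ≤ 1 → ∀ T : ℝ, 2 ≤ T →
    ∫⁻ y : ℝ, ENNReal.ofReal (‖D ((σ : ℂ) + y * Complex.I) - n / ((σ : ℂ) + y * Complex.I)‖ /
        ‖(σ : ℂ) + y * Complex.I‖ * min 1 (T / ‖(σ : ℂ) + y * Complex.I‖)) ≤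
      ENNReal.ofReal (C * Real.log T ^ 2 * (1 + Real.log (1 / σ)))

/-- part SET: from the low and the high part of `E(u) = u f(u) - r(u)` to the measure of the set where
`|f| > ε` -/
def SET : Prop := ∀ (f r E : ℝ → ℝ) (EL : ℝ → ℝ → ℝ) (C : ℝ), 0 ≤ C →
  Measurable f → Measurable E → (∀ T, Measurable (EL T)) →
  (∀ u : ℝ, 0 < u → E u = u * f u - r u) →
  Filter.Tendsto (fun u => r u / u) Filter.atTop (nhds 0) →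
  (∀ T : ℝ, 2 ≤ T → ∀ u : ℝ, 1 ≤ u → |EL T u| ≤ C * Real.log T ^ 2 * (1 + Real.log u)) →
  (∀ T : ℝ, 2 ≤ T → ∀ U : ℝ, 1 ≤ U →
    ∫⁻ u in Icc U (U + 1), ENNReal.ofReal ((E u - EL T u) ^ 2) ≤
      ENNReal.ofReal (C * U ^ 4 / T ^ (1 / 2 : ℝ))) →
  ∀ ε : ℝ, 0 < ε → ∃ κ : ℝ, 0 < κ ∧ ∀ᶠ U : ℝ in Filter.atTop,
    volume {u : ℝ | U ≤ u ∧ u ≤ U + 1 ∧ ε < |f u|} ≤
      ENNReal.ofReal (Real.exp (-(κ * Real.sqrt (U / Real.log U))))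

end Pool.Agent.W263.SP
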