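import Pool.Agent.W743.BE.Land
import Pool.Agent.W263.MS.Ptw
import Pool.Agent.W263.SP.Stm

/-! The local bound of the logarithmic derivative. -/

set_option autoImplicit false

namespace Pool.Agent.W263.SP

open MeasureTheory Filter Topology Set Metric
open H370 H370.Loc
open Pool.Agent.W743.BE
open Pool.Agent.W263.MS (fam)

/-- Landau's lemma with the zeros exposed -/
theorem landau3 {f : ℂ → ℂ} {c : ℂ} {r r1 r2 R M : ℝ} (hr2 : 0 < r2) (h21 : r2 < r1)
    (h1r : r1 < r) (hrR : r < R) (hRr : R ≤ 2 * r) (hM : 1 ≤ M) (hMf : ‖f c‖ ≤ M)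
    (hf : AnalyticOnNhd ℂ f (closedBall c R)) (hc : f c ≠ 0)
    (hb : ∀ z ∈ closedBall c R, ‖f z‖ ≤ M) :
    ∃ s : Multiset ℂ, (Multiset.card s : ℝ) ≤ Real.log (M / ‖f c‖) / Real.log (R / r) ∧
      (∀ ρ ∈ s, f ρ = 0) ∧ ∀ z ∈ closedBall c r2, (∀ ρ ∈ s, z ≠ ρ) →
      f z ≠ 0 ∧ ‖deriv f z / f z‖ ≤ (s.map fun ρ => 1 / ‖z - ρ‖).sum +
        2 * (Real.log (M / ‖f c‖) + Real.log (M / ‖f c‖) / Real.log (R / r) *
          Real.log (r / (R - r)) + 1) * r1 / (r - r1) / (r1 - r2) := by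
  have hr : 0 < r := by linarith
  have hR : 0 < R := by linarith
  obtain ⟨s, g, hs, hg, hfg, hg0, hcard⟩ := extract hr hrR hM hf hc hb
  refine ⟨s, hcard, fun ρ hρ => (hs ρ hρ).2, ?_⟩
  intro z hz hdist
  have hzr : z ∈ closedBall c r := closedBall_subset_closedBall (by linarith) hz
  have hzR : z ∈ closedBall c R := closedBall_subset_closedBall hrR.le hzr
  have hcr : c ∈ closedBall c r := mem_closedBall_self hr.le
  have hcR : c ∈ closedBall c R := mem_closedBall_self hR.le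
  have hPz : Pf s z ≠ 0 := Pf_ne_zero hdist
  have hfz : f z ≠ 0 := by rw [hfg z]; exact mul_ne_zero hPz (hg0 z hzr)
  refine ⟨hfz, ?_⟩
  have hfc : 0 < ‖f c‖ := norm_pos_iff.2 hc
  set n := Multiset.card s with hn
  have hlogM : 0 ≤ Real.log (M / ‖f c‖) := Real.log_nonneg (by rw [le_div_iff₀ hfc]; linarith)
  have hRr0 : 0 < R - r := by linarith
  have hq : 1 ≤ r / (R - r) := by rw [le_div_iff₀ hRr0]; linarith
  have hlogq : 0 ≤ Real.log (r / (R - r)) := Real.log_nonneg hq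
  -- bounds for g
  have hgsphere : ∀ w ∈ sphere c R, ‖g w‖ ≤ M / (R - r) ^ n := by
    intro w hw
    have hwR := sphere_subset_closedBall hw
    have h1 : (R - r) ^ n ≤ ‖Pf s w‖ := Pf_norm_ge hRr0.le fun ρ hρ => by
      have h2 := (hs ρ hρ).1
      rw [mem_closedBall, dist_eq_norm] at h2
      rw [mem_sphere, dist_eq_norm] at hw
      have h3 : ‖w - c‖ ≤ ‖w - ρ‖ + ‖ρ - c‖ := by
        calc ‖w - c‖ = ‖(w - ρ) + (ρ - c)‖ := by congr 1; ring
          _ ≤ _ := norm_add_le _ _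
      linarith
    rw [le_div_iff₀ (by positivity)]
    calc ‖g w‖ * (R - r) ^ n ≤ ‖g w‖ * ‖Pf s w‖ := mul_le_mul_of_nonneg_left h1 (norm_nonneg _)
      _ = ‖f w‖ := by rw [hfg w, norm_mul, mul_comm]
      _ ≤ M := hb w hwR
  have hgball : ∀ w ∈ closedBall c R, ‖g w‖ ≤ M / (R - r) ^ n := by
    intro w hw
    refine Complex.norm_le_of_forall_mem_frontier_norm_le (U := ball c R) isBounded_ball ?_ ?_ ?_
    · apply DifferentiableOn.diffContOnCl
      rw [closure_ball c hR.ne']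
      exact fun x hx => (hg x hx).differentiableAt.differentiableWithinAt
    · intro x hx
      rw [frontier_ball c hR.ne'] at hx
      exact hgsphere x hx
    · rwa [closure_ball c hR.ne']
  have hgc : ‖f c‖ / r ^ n ≤ ‖g c‖ := by
    rw [div_le_iff₀ (by positivity)]
    have h1 : ‖Pf s c‖ ≤ r ^ n := Pf_norm_le fun ρ hρ => by
      have h2 := (hs ρ hρ).1
      rw [mem_closedBall, dist_eq_norm, norm_sub_rev] at h2
      exact h2
    calc ‖f c‖ = ‖g c‖ * ‖Pf s c‖ := by rw [hfg c, norm_mul, mul_comm]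
      _ ≤ ‖g c‖ * r ^ n := mul_le_mul_of_nonneg_left h1 (norm_nonneg _)
  set B : ℝ := Real.log (M / ‖f c‖) + n * Real.log (r / (R - r)) with hB
  have hB0 : 0 ≤ B := by positivity
  have hexpB : Real.exp B = M / ‖f c‖ * (r / (R - r)) ^ n := by
    rw [hB, Real.exp_add, Real.exp_log (by positivity), Real.exp_nat_mul,
      Real.exp_log (by positivity)]
  have hgb : ∀ w ∈ closedBall c r, ‖g w‖ ≤ Real.exp B * ‖g c‖ := by
    intro w hw
    refine (hgball w (closedBall_subset_closedBall hrR.le hw)).trans ?_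
    rw [hexpB]
    calc M / (R - r) ^ n = M / ‖f c‖ * (r / (R - r)) ^ n * (‖f c‖ / r ^ n) := by
          rw [div_pow]; field_simp
      _ ≤ _ := mul_le_mul_of_nonneg_left hgc (by positivity)
  have hlg := logDeriv_zero_free hr2 h21 h1r hB0
    (hg.mono (closedBall_subset_closedBall hrR.le)) hg0 hgb hz
  have hlP := Pf_logDeriv' (s := s) hdist
  have heq : deriv f z / f z = logDeriv (Pf s) z + logDeriv g z := by
    have h1 : f = fun w => Pf s w * g w := funext hfg
    rw [← logDeriv_apply]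
    conv_lhs => rw [h1]
    exact logDeriv_mul z hPz (hg0 z hzr) (Pf_diff s z) (hg z hzR).differentiableAt
  rw [heq]
  refine (norm_add_le _ _).trans (add_le_add hlP (hlg.trans ?_))
  have h8 : B ≤ Real.log (M / ‖f c‖) + Real.log (M / ‖f c‖) / Real.log (R / r) *
        Real.log (r / (R - r)) := by
    rw [hB]
    have := mul_le_mul_of_nonneg_right hcard hlogq
    linarith
  have h9 : 0 < r - r1 := by linarith
  have h10 : 0 < r1 - r2 := by linarith
  have h11 : 0 < r1 := by linarith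
  gcongr


/-- **Part LOC.** -/
theorem loc {f : ℂ → ℂ} {C m : ℝ} {A : ℕ} (hm : 0 < m)
    (hf : ∀ w : ℂ, -1 < w.re → DifferentiableAt ℂ f w)
    (hf0 : ∀ w : ℂ, 0 < w.re → f w ≠ 0)
    (hg : ∀ w : ℂ, -1 < w.re → ‖f w‖ ≤ C * (1 + ‖w‖) ^ A)
    (hlow : ∀ w : ℂ, w.re = 2 → m ≤ ‖f w‖) :
    ∃ K : ℝ, 0 ≤ K ∧ LocalBound (fun w => deriv f w / f w) K := by
  set q : ℝ := 1 / Real.log (29 / 10 / (5 / 2)) with hq
  have hlog1 : 0 < Real.log (29 / 10 / (5 / 2) : ℝ) := Real.log_pos (by norm_num)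
  have hq0 : 0 < q := by rw [hq]; positivity
  set lr : ℝ := Real.log (5 / 2 / (29 / 10 - 5 / 2)) with hlr
  have hlr0 : 0 ≤ lr := Real.log_nonneg (by norm_num)
  have hlog2 : 0 < Real.log 2 := Real.log_pos (by norm_num)
  have hlog6 : 0 ≤ Real.log 6 := Real.log_nonneg (by norm_num)
  set KB : ℝ := |Real.log ((|C| + 1) / m)| / Real.log 2 + A * (Real.log 6 / Real.log 2 + 1) with hKB
  have hKB0 : 0 ≤ KB := by positivity
  set KE : ℝ := 2 * (KB + KB * q * lr + 1 / Real.log 2) * (11 / 5) / (5 / 2 - 11 / 5) /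
    (11 / 5 - 21 / 10) with hKE
  have hKE0 : 0 ≤ KE := by
    rw [hKE]
    have : (0 : ℝ) ≤ 5 / 2 - 11 / 5 := by norm_num
    have : (0 : ℝ) ≤ 11 / 5 - 21 / 10 := by norm_num
    positivity
  refine ⟨KE + q * KB, by positivity, fun y0 => ?_⟩
  set Y : ℝ := Real.log (2 + |y0|) with hY
  have hY2 : Real.log 2 ≤ Y := Real.log_le_log (by norm_num) (by linarith [abs_nonneg y0])
  have hY0 : 0 < Y := by linarith
  set c : ℂ := 2 + y0 * Complex.I with hc
  have hcre : c.re = 2 := by simp [hc]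
  have hcim : c.im = y0 := by simp [hc]
  have hcn : ‖c‖ ≤ 2 + |y0| := by
    rw [hc]
    refine (norm_add_le _ _).trans ?_
    rw [norm_mul, Complex.norm_I, mul_one, Complex.norm_real, Real.norm_eq_abs]
    simp
  set M : ℝ := |C| * (6 + |y0|) ^ A + 1 with hM
  have hM1 : 1 ≤ M := by
    have : 0 ≤ |C| * (6 + |y0|) ^ A := by positivity
    linarith
  have hball : ∀ z ∈ closedBall c (29 / 10), -1 < z.re := by
    intro z hz
    rw [mem_closedBall, dist_eq_norm] at hz
    have h1 := (abs_le.mp ((Complex.abs_re_le_norm (z - c)).trans hz)).1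
    rw [Complex.sub_re, hcre] at h1
    linarith
  have hb : ∀ z ∈ closedBall c (29 / 10), ‖f z‖ ≤ M := by
    intro z hz
    refine (hg z (hball z hz)).trans ?_
    rw [mem_closedBall, dist_eq_norm] at hz
    have h1 : ‖z‖ ≤ 5 + |y0| := by
      calc ‖z‖ = ‖(z - c) + c‖ := by congr 1; ring
        _ ≤ ‖z - c‖ + ‖c‖ := norm_add_le _ _
        _ ≤ 29 / 10 + (2 + |y0|) := add_le_add hz hcn
        _ ≤ _ := by linarith
    calc C * (1 + ‖z‖) ^ A ≤ |C| * (1 + ‖z‖) ^ A :=
          mul_le_mul_of_nonneg_right (le_abs_self C) (by positivity)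
      _ ≤ |C| * (6 + |y0|) ^ A := by
          refine mul_le_mul_of_nonneg_left ?_ (abs_nonneg C)
          exact pow_le_pow_left₀ (by positivity) (by linarith) A
      _ ≤ M := by rw [hM]; linarith
  have hfan : AnalyticOnNhd ℂ f (closedBall c (29 / 10)) := by
    intro z hz
    refine Complex.analyticAt_iff_eventually_differentiableAt.mpr ?_
    have ho : IsOpen {w : ℂ | -1 < w.re} := isOpen_lt continuous_const Complex.continuous_re
    filter_upwards [ho.mem_nhds (hball z hz)] with w hw using hf w hw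
  have hmc : m ≤ ‖f c‖ := hlow c hcre
  have hfc : 0 < ‖f c‖ := hm.trans_le hmc
  have hcmem : c ∈ closedBall c (29 / 10) := mem_closedBall_self (by norm_num)
  obtain ⟨s, hcard, hzero, hs⟩ := landau3 (f := f) (c := c) (r := 5 / 2) (r1 := 11 / 5)
    (r2 := 21 / 10) (R := 29 / 10) (M := M) (by norm_num) (by norm_num) (by norm_num)
    (by norm_num) (by norm_num) hM1 (hb c hcmem) hfan (norm_pos_iff.mp hfc) hb
  set B : ℝ := Real.log (M / ‖f c‖) with hB
  have hB0 : 0 ≤ B := Real.log_nonneg (by rw [le_div_iff₀ hfc]; linarith [hb c hcmem])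
  have hBY : B ≤ KB * Y := by
    have h6 : 0 < (6 : ℝ) + |y0| := by positivity
    have e1 : M / ‖f c‖ ≤ (|C| + 1) / m * (6 + |y0|) ^ A := by
      have h7 : M ≤ (|C| + 1) * (6 + |y0|) ^ A := by
        have h8 : (1 : ℝ) ≤ (6 + |y0|) ^ A := one_le_pow₀ (by linarith [abs_nonneg y0])
        rw [hM]; nlinarith [abs_nonneg C]
      calc M / ‖f c‖ ≤ M / m := div_le_div_of_nonneg_left (by linarith) hm hmc
        _ ≤ (|C| + 1) * (6 + |y0|) ^ A / m := by gcongr
        _ = _ := by ring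
    have e2 : B ≤ Real.log ((|C| + 1) / m) + A * Real.log (6 + |y0|) := by
      rw [hB]
      refine (Real.log_le_log (by positivity) e1).trans (le_of_eq ?_)
      rw [Real.log_mul (by positivity) (by positivity), Real.log_pow]
    have e3 : Real.log (6 + |y0|) ≤ (Real.log 6 / Real.log 2 + 1) * Y := by
      have h8 : Real.log (6 + |y0|) ≤ Real.log (6 * (2 + |y0|)) :=
        Real.log_le_log h6 (by linarith [abs_nonneg y0])
      rw [Real.log_mul (by norm_num) (by positivity)] at h8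
      have h9 : Real.log 6 ≤ Real.log 6 / Real.log 2 * Y := by
        rw [div_mul_eq_mul_div, le_div_iff₀ hlog2]
        exact mul_le_mul_of_nonneg_left hY2 hlog6
      rw [add_mul, one_mul]
      linarith
    have e4 : (A : ℝ) * Real.log (6 + |y0|) ≤ A * ((Real.log 6 / Real.log 2 + 1) * Y) :=
      mul_le_mul_of_nonneg_left e3 (Nat.cast_nonneg A)
    have e5 := le_abs_self (Real.log ((|C| + 1) / m))
    have e6 : |Real.log ((|C| + 1) / m)| ≤ |Real.log ((|C| + 1) / m)| / Real.log 2 * Y := by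
      rw [div_mul_eq_mul_div, le_div_iff₀ hlog2]
      exact mul_le_mul_of_nonneg_left hY2 (abs_nonneg _)
    rw [hKB]
    linarith
  set E : ℝ := 2 * (B + B / Real.log (29 / 10 / (5 / 2)) * lr + 1) * (11 / 5) /
    (5 / 2 - 11 / 5) / (11 / 5 - 21 / 10) with hE
  have hBq : B / Real.log (29 / 10 / (5 / 2)) = B * q := by rw [hq]; ring
  have hEY : E ≤ KE * Y := by
    have h1 : B + B / Real.log (29 / 10 / (5 / 2)) * lr + 1 ≤
        (KB + KB * q * lr + 1 / Real.log 2) * Y := by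
      rw [hBq]
      have h2 : B * q * lr ≤ KB * Y * q * lr := by gcongr
      have h3 : 1 ≤ 1 / Real.log 2 * Y := by
        rw [one_div_mul_eq_div, le_div_iff₀ hlog2]
        linarith
      nlinarith
    rw [hE, hKE]
    have e : 2 * (KB + KB * q * lr + 1 / Real.log 2) * (11 / 5) / (5 / 2 - 11 / 5) /
        (11 / 5 - 21 / 10) * Y = 2 * ((KB + KB * q * lr + 1 / Real.log 2) * Y) * (11 / 5) /
        (5 / 2 - 11 / 5) / (11 / 5 - 21 / 10) := by
      ring
    rw [e]
    have : (0 : ℝ) < 5 / 2 - 11 / 5 := by norm_num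
    have : (0 : ℝ) < 11 / 5 - 21 / 10 := by norm_num
    gcongr
  obtain ⟨n, ρ, hn, hmem, hsum⟩ := fam s
  -- the points of the family are zeros
  have hfin : ∃ (n : ℕ) (ρ : Fin n → ℂ), Multiset.card s = n ∧ (∀ z, z ∈ s → ∃ i, ρ i = z) ∧
      (∀ i, ρ i ∈ s) ∧ ∀ f : ℂ → ℝ, (s.map f).sum = ∑ i, f (ρ i) := by
    refine ⟨Multiset.card s, fun i => s.toList.get ⟨i, by simp⟩, rfl, ?_, ?_, ?_⟩
    · intro z hz
      rw [← Multiset.mem_toList] at hz
      obtain ⟨i, hi⟩ := List.mem_iff_get.mp hz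
      exact ⟨⟨i, by simpa using i.2⟩, hi⟩
    · intro i
      rw [← Multiset.mem_toList]
      exact List.get_mem _ _
    · intro f
      conv_lhs => rw [← Multiset.coe_toList s]
      rw [Multiset.map_coe, Multiset.sum_coe]
      have h1 : (s.toList.map f) = List.ofFn fun i : Fin (Multiset.card s) =>
          f (s.toList.get ⟨i, by simp⟩) := by
        refine List.ext_get (by simp) fun k h1 h2 => ?_
        simp
      rw [h1, List.sum_ofFn]
  obtain ⟨n, ρ, hn, hmem, hin, hsum⟩ := hfin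
  refine ⟨n, ρ, ?_, ?_, ?_⟩
  · rw [← hn]
    refine hcard.trans ?_
    rw [hBq]
    have h1 : B * q ≤ KB * Y * q := by gcongr
    have h2 : 0 ≤ KE * Y := by positivity
    nlinarith
  · intro i
    by_contra hcon
    push Not at hcon
    exact hf0 (ρ i) hcon (hzero _ (hin i))
  · intro w hw hw1 hwy
    have hre : ∀ i, (ρ i).re ≤ 0 := by
      intro i
      by_contra hcon
      push Not at hcon
      exact hf0 (ρ i) hcon (hzero _ (hin i))
    have hzb : w ∈ closedBall c (21 / 10) := by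
      rw [mem_closedBall, dist_eq_norm]
      have h1 : ‖w - c‖ ^ 2 = (w.re - 2) ^ 2 + (w.im - y0) ^ 2 := by
        rw [← Complex.normSq_eq_norm_sq, Complex.normSq_apply, Complex.sub_re, Complex.sub_im,
          hcre, hcim]
        ring
      have h2 : (w.re - 2) ^ 2 ≤ 4 := by nlinarith
      have h3 : (w.im - y0) ^ 2 ≤ 1 / 4 := by
        have := abs_le.mp hwy
        nlinarith [this.1, this.2]
      have h4 : ‖w - c‖ ^ 2 ≤ (21 / 10) ^ 2 := by rw [h1]; norm_num; linarith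
      exact (pow_le_pow_iff_left₀ (norm_nonneg _) (by norm_num) two_ne_zero).mp h4
    obtain ⟨_, h5⟩ := hs w hzb (fun ρ' hρ' he => by
      have h6 := hf0 w hw
      rw [he] at h6
      exact h6 (hzero ρ' hρ'))
    rw [hsum] at h5
    have h6 : 0 ≤ q * KB * Y := by positivity
    show ‖deriv f w / f w‖ ≤ _
    have h7 : (∑ i, 1 / ‖w - ρ i‖) + E ≤ (KE + q * KB) * Y + ∑ i, 1 / ‖w - ρ i‖ := by
      rw [add_mul]
      linarith
    exact h5.trans h7

/-- crude pointwise bound -/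
theorem LocalBound.crude {D : ℂ → ℂ} {K : ℝ} (hK : 0 ≤ K) (h : LocalBound D K) {w : ℂ}
    (hw : 0 < w.re) (hw1 : w.re ≤ 1) :
    ‖D w‖ ≤ 2 * K * Real.log (2 + |w.im|) * (1 / w.re) := by
  obtain ⟨n, ρ, hn, hρ, hb⟩ := h w.im
  have h1 := hb w hw hw1 (by simp)
  have hY : 0 ≤ Real.log (2 + |w.im|) := Real.log_nonneg (by linarith [abs_nonneg w.im])
  have h2 : ∑ i, 1 / ‖w - ρ i‖ ≤ ∑ _i : Fin n, 1 / w.re := by
    refine Finset.sum_le_sum fun i _ => ?_
    refine one_div_le_one_div_of_le hw ?_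
    have h3 : (w - ρ i).re ≤ ‖w - ρ i‖ := (le_abs_self _).trans (Complex.abs_re_le_norm _)
    rw [Complex.sub_re] at h3
    linarith [hρ i]
  rw [Finset.sum_const, Finset.card_univ, Fintype.card_fin, nsmul_eq_mul] at h2
  have h4 : (n : ℝ) * (1 / w.re) ≤ K * Real.log (2 + |w.im|) * (1 / w.re) := by gcongr
  have h5 : 1 ≤ 1 / w.re := by rw [one_le_div hw]; exact hw1
  have h6 : K * Real.log (2 + |w.im|) ≤ K * Real.log (2 + |w.im|) * (1 / w.re) :=
    le_mul_of_one_le_right (by positivity) h5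
  linarith

end Pool.Agent.W263.SP
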