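import Pool.Agent.W263.SP.Tr
import Pool.Agent.W513.SP.Win
import Pool.Agent.W271.SP.Lin

/-! The low part. -/

set_option autoImplicit false

namespace Pool.Agent.W263.SP

open MeasureTheory Filter Topology Set Classical
open Pool.Agent.W263.BSD Pool.Agent.W263.EP Pool.Agent.W263.MN Pool.Agent.W263.LG
open Pool.Agent.W263.MS Pool.Agent.W263.HI
open scoped ENNReal

variable {f : ℝ → ℝ} {g DL : ℂ → ℂ} {n K M δ : ℝ}

theorem one_add_le {w : ℂ} {a : ℝ} (ha : 0 < a) (hw : a ≤ w.re) :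
    1 + |w.im| ≤ ‖w‖ * (1 + 1 / a) := by
  have h1 : a ≤ ‖w‖ := hw.trans (re_le w)
  have h2 : |w.im| ≤ ‖w‖ := Complex.abs_im_le_norm w
  have h3 : 1 ≤ ‖w‖ * (1 / a) := by
    rw [mul_one_div, le_div_iff₀ ha]; linarith
  have e : ‖w‖ * (1 + 1 / a) = ‖w‖ + ‖w‖ * (1 / a) := by ring
  rw [e]
  linarith

theorem log_le_q (y : ℝ) : Real.log (2 + |y|) ≤ 16 * (1 + |y|) ^ (1 / 8 : ℝ) := by
  have h0 := abs_nonneg y
  have h1 := Real.log_le_rpow_div (x := 2 + |y|) (by linarith) (show (0 : ℝ) < 1 / 8 by norm_num)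
  have h2 : (2 + |y|) ^ (1 / 8 : ℝ) ≤ (2 * (1 + |y|)) ^ (1 / 8 : ℝ) :=
    Real.rpow_le_rpow (by linarith) (by linarith) (by norm_num)
  have h3 : (2 * (1 + |y|)) ^ (1 / 8 : ℝ) = 2 ^ (1 / 8 : ℝ) * (1 + |y|) ^ (1 / 8 : ℝ) :=
    Real.mul_rpow (by norm_num) (by linarith)
  have h4 : (2 : ℝ) ^ (1 / 8 : ℝ) ≤ 2 ^ (1 : ℝ) :=
    Real.rpow_le_rpow_of_exponent_le (by norm_num) (by norm_num)
  rw [Real.rpow_one] at h4
  have h5 : 0 ≤ (1 + |y|) ^ (1 / 8 : ℝ) := by positivity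
  calc Real.log (2 + |y|) ≤ (2 + |y|) ^ (1 / 8 : ℝ) / (1 / 8) := h1
    _ = 8 * (2 + |y|) ^ (1 / 8 : ℝ) := by ring
    _ ≤ 8 * (2 * (1 + |y|) ^ (1 / 8 : ℝ)) := by
        rw [h3] at h2
        have := mul_le_mul_of_nonneg_right h4 h5
        linarith
    _ = _ := by ring

theorem D_le (hK : 0 ≤ K) (hloc : LocalBound DL K) {w : ℂ} (hw : 0 < w.re) (hw1 : w.re ≤ 1) :
    ‖DL w - n / w‖ ≤ (32 * K + |n|) * (1 + |w.im|) ^ (1 / 8 : ℝ) * (1 / w.re) := by
  have h1 := LocalBound.crude hK hloc hw hw1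
  have h2 := log_le_q w.im
  have hn : 0 < ‖w‖ := hw.trans_le (re_le w)
  have h3 : ‖(n : ℂ) / w‖ ≤ |n| * (1 / w.re) := by
    rw [norm_div, Complex.norm_real, Real.norm_eq_abs, div_eq_mul_one_div]
    exact mul_le_mul_of_nonneg_left (one_div_le_one_div_of_le hw (re_le w)) (abs_nonneg n)
  have h4 : (1 : ℝ) ≤ (1 + |w.im|) ^ (1 / 8 : ℝ) :=
    Real.one_le_rpow (by linarith [abs_nonneg w.im]) (by norm_num)
  have h5 : 0 < 1 / w.re := by positivity
  calc ‖DL w - n / w‖ ≤ ‖DL w‖ + ‖(n : ℂ) / w‖ := norm_sub_le _ _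
    _ ≤ 2 * K * Real.log (2 + |w.im|) * (1 / w.re) + |n| * (1 / w.re) := add_le_add h1 h3
    _ ≤ 2 * K * (16 * (1 + |w.im|) ^ (1 / 8 : ℝ)) * (1 / w.re) +
        |n| * (1 + |w.im|) ^ (1 / 8 : ℝ) * (1 / w.re) := by
        gcongr
        exact le_mul_of_one_le_right (abs_nonneg n) h4
    _ = _ := by ring

theorem line_cont {H : ℂ → ℂ} (hd : ∀ w : ℂ, 0 < w.re → DifferentiableAt ℂ H w) {σ : ℝ}
    (hσ : 0 < σ) : Continuous fun y : ℝ => H ((σ : ℂ) + y * Complex.I) := by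
  refine continuous_iff_continuousAt.mpr fun y => ?_
  have h1 : ContinuousAt H ((σ : ℂ) + y * Complex.I) := (hd _ (by simpa using hσ)).continuousAt
  exact ContinuousAt.comp (f := fun y : ℝ => (σ : ℂ) + y * Complex.I) h1
    (by fun_prop : Continuous fun y : ℝ => (σ : ℂ) + y * Complex.I).continuousAt

theorem kk_le_T {w : ℂ} (hw : 0 < w.re) {T : ℝ} (hT : 0 < T) :
    ‖kk (w / T)‖ ≤ 2 * min 1 (T / ‖w‖) := by
  have h0 : (0 : ℝ) < (w / T).re := by
    rw [Complex.div_ofReal_re]; positivity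
  have h1 := kk_le h0
  rw [norm_div, Complex.norm_real, Real.norm_of_nonneg hT.le, one_div_div] at h1
  exact h1

theorem kk_diff {w : ℂ} (hw : 0 < w.re) {T : ℝ} (hT : 0 < T) :
    DifferentiableAt ℂ (fun w : ℂ => kk (w / T)) w := by
  have hTc : (T : ℂ) ≠ 0 := by exact_mod_cast hT.ne'
  have hwn : w ≠ 0 := w_ne hw
  unfold kk
  refine DifferentiableAt.div (by fun_prop) (by fun_prop) (div_ne_zero hwn hTc)

/-- **The low part.** -/
theorem low (hf : Measurable f) (hI : ∀ w > 0, LInt f w)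
    (hg : ∀ w : ℂ, 0 < w.re → lapC f w = g w / w)
    (hgd : ∀ w : ℂ, 0 < w.re → HasDerivAt g (DL w - n / w) w)
    (hK : 0 ≤ K) (hloc : LocalBound DL K) (hδ : 0 < δ)
    (hnear : ∀ w : ℂ, 0 < w.re → ‖w‖ < δ → ‖DL w - n / w‖ ≤ M)
    (hDL : ∀ w : ℂ, 0 < w.re → DifferentiableAt ℂ DL w) :
    ∃ C : ℝ, 0 ≤ C ∧ ∀ T : ℝ, 2 ≤ T → ∀ u : ℝ, 1 ≤ u →
      |EL f T u| ≤ C * Real.log T ^ 2 * (1 + Real.log u) := by
  obtain ⟨K', hK', hwin⟩ := Pool.Agent.W513.SP.win DL K hK hloc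
  obtain ⟨C, hC, hlin⟩ := Pool.Agent.W271.SP.lin DL K' M δ n hK' hδ
    (fun σ hσ => line_cont hDL hσ) hwin hnear
  refine ⟨Real.exp 1 * (2 * C), by positivity, fun T hT u hu => ?_⟩
  have hT0 : 0 < T := by linarith
  have hu0 : 0 < u := by linarith
  set H : ℂ → ℂ := fun w => -((DL w - n / w) / w) * kk (w / T) with hH
  have hd : ∀ w : ℂ, 0 < w.re → DifferentiableAt ℂ H w := by
    intro w hw
    have hwn : w ≠ 0 := w_ne hw
    exact (((hDL w hw).sub ((differentiableAt_const _).div differentiableAt_id hwn)).div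
      differentiableAt_id hwn).neg.mul (kk_diff hw hT0)
  have hl : ∀ U, IntegrableOn (EE f) (Ioc 0 U) := fun U =>
    b_integrable (EE_meas hf) (fun w hw => EE_LInt hf hI hw) U
  have h1 := inv_line (f := EL f T) (EL_meas hf T) (EL_LInt hf hI hT0 one_pos) (H := H) hd
    (fun w hw => EL_lap hf hI hg hgd hT0 (by rw [hw]; exact one_pos))
    (fun a ha ha1 => by
      set B : ℝ := (32 * K + |n|) * (1 / a) * (1 + 1 / a) ^ 2 * (2 * T) with hB
      have hB0 : 0 ≤ 32 * K + |n| := by positivity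
      refine ⟨B, by positivity, fun w hw hw1 => ?_⟩
      have hw0 : 0 < w.re := ha.trans_le hw
      have hn : 0 < ‖w‖ := hw0.trans_le (re_le w)
      have hs : 0 < 1 + |w.im| := by positivity
      have h2 := D_le (n := n) hK hloc hw0 hw1
      have h3 := one_add_le ha hw
      have h4 : 1 / ‖w‖ ≤ (1 + 1 / a) / (1 + |w.im|) := by
        rw [div_le_div_iff₀ hn hs, one_mul]
        linarith
      have h5 : ‖kk (w / T)‖ ≤ 2 * (T * (1 / ‖w‖)) := by
        refine (kk_le_T hw0 hT0).trans ?_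
        have := min_le_right 1 (T / ‖w‖)
        rw [mul_one_div]
        linarith
      rw [hH]
      simp only []
      rw [norm_mul, norm_neg, norm_div, div_eq_mul_one_div]
      have h6 : (1 + |w.im|) ^ (-(3 / 2 : ℝ)) ≥ (1 + |w.im|) ^ (1 / 8 : ℝ) / (1 + |w.im|) ^ 2 := by
        rw [← Real.rpow_natCast, ← Real.rpow_sub hs]
        refine Real.rpow_le_rpow_of_exponent_le (by linarith [abs_nonneg w.im]) (by norm_num)
      have h7 : 1 / w.re ≤ 1 / a := one_div_le_one_div_of_le ha hw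
      calc ‖DL w - n / w‖ * (1 / ‖w‖) * ‖kk (w / T)‖ ≤
          ((32 * K + |n|) * (1 + |w.im|) ^ (1 / 8 : ℝ) * (1 / w.re)) * (1 / ‖w‖) *
            (2 * (T * (1 / ‖w‖))) := by gcongr
        _ ≤ ((32 * K + |n|) * (1 + |w.im|) ^ (1 / 8 : ℝ) * (1 / a)) *
            ((1 + 1 / a) / (1 + |w.im|)) * (2 * (T * ((1 + 1 / a) / (1 + |w.im|)))) := by
            gcongr
        _ = B * ((1 + |w.im|) ^ (1 / 8 : ℝ) / (1 + |w.im|) ^ 2) := by
            rw [hB]
            field_simp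
        _ ≤ B * (1 + |w.im|) ^ (-(3 / 2 : ℝ)) := by
            refine mul_le_mul_of_nonneg_left h6 (by positivity))
    hu (EL_cont hf hl hu0)
  have h2 : ∫ y : ℝ, ‖H (((1 / u : ℝ) : ℂ) + y * Complex.I)‖ ≤
      2 * (C * Real.log T ^ 2 * (1 + Real.log u)) := by
    have hlu : 0 ≤ Real.log u := Real.log_nonneg hu
    have hσ : 0 < 1 / u := by positivity
    have hσ1 : 1 / u ≤ 1 := by rw [div_le_one hu0]; exact hu
    rw [integral_eq_lintegral_of_nonneg_ae (Eventually.of_forall fun y => norm_nonneg _)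
      (line_cont hd hσ).norm.aestronglyMeasurable]
    refine ENNReal.toReal_le_of_le_ofReal (by positivity) ?_
    have h3 := hlin (1 / u) hσ hσ1 T hT
    rw [one_div_one_div] at h3
    rw [ENNReal.ofReal_mul (by norm_num : (0 : ℝ) ≤ 2)]
    refine le_trans ?_ (mul_le_mul' le_rfl h3)
    rw [← lintegral_const_mul' _ _ ENNReal.ofReal_ne_top]
    refine lintegral_mono fun y => ?_
    rw [← ENNReal.ofReal_mul (by norm_num)]
    refine ENNReal.ofReal_le_ofReal ?_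
    set w : ℂ := ((1 / u : ℝ) : ℂ) + y * Complex.I with hw
    have hwre : 0 < w.re := by
      have : w.re = 1 / u := by simp [hw]
      rw [this]; exact hσ
    rw [hH]
    simp only []
    rw [norm_mul, norm_neg, norm_div]
    calc ‖DL w - n / w‖ / ‖w‖ * ‖kk (w / T)‖ ≤ ‖DL w - n / w‖ / ‖w‖ * (2 * min 1 (T / ‖w‖)) :=
          mul_le_mul_of_nonneg_left (kk_le_T hwre hT0) (by positivity)
      _ = _ := by ring
  refine h1.trans ?_
  calc Real.exp 1 * ∫ y : ℝ, ‖H (((1 / u : ℝ) : ℂ) + y * Complex.I)‖ ≤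
      Real.exp 1 * (2 * (C * Real.log T ^ 2 * (1 + Real.log u))) :=
        mul_le_mul_of_nonneg_left h2 (Real.exp_pos _).le
    _ = _ := by ring

end Pool.Agent.W263.SP
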