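import Pool.Agent.W263.SP.High

/-! The bound `O(log³ u)` for the primitive. -/

set_option autoImplicit false

namespace Pool.Agent.W263.SP

open MeasureTheory Filter Topology Set Classical
open Pool.Agent.W263.BSD Pool.Agent.W263.EP Pool.Agent.W263.MN Pool.Agent.W263.LG
open Pool.Agent.W263.MS Pool.Agent.W263.HI
open scoped ENNReal

variable {f : ℝ → ℝ}

/-- the second primitive -/
theorem intU_intU (hf : Measurable f) {U : ℝ} (_ : 0 < U) (hi : IntegrableOn f (Ioc 0 U)) :
    EP.intU (EP.intU f) U = ∫ t in Ioc 0 U, (U - t) * f t := by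
  have h1 : EP.intU (EP.intU f) U = ∫ v in Ioc 0 U, ∫ t in Ioc 0 U,
      (if t ≤ v then f t else 0) := by
    unfold EP.intU
    refine setIntegral_congr_fun measurableSet_Ioc fun v hv => ?_
    have e1 : (fun t => if t ≤ v then f t else 0) = (Iic v).indicator f := by
      funext t
      by_cases h : t ≤ v
      · rw [if_pos h, indicator_of_mem (show t ∈ Iic v from h)]
      · rw [if_neg h, indicator_of_notMem (show t ∉ Iic v from h)]
    simp only [e1]
    rw [setIntegral_indicator measurableSet_Iic]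
    congr 2
    ext t
    simp only [mem_inter_iff, mem_Ioc, mem_Iic]
    have := hv.2
    constructor
    · rintro ⟨a, b⟩; exact ⟨⟨a, b.trans this⟩, b⟩
    · rintro ⟨⟨a, _⟩, b⟩; exact ⟨a, b⟩
  have hint : Integrable (Function.uncurry fun v t : ℝ => if t ≤ v then f t else 0)
      ((volume.restrict (Ioc 0 U)).prod (volume.restrict (Ioc 0 U))) := by
    have h2 : Integrable (fun p : ℝ × ℝ => f p.2)
        ((volume.restrict (Ioc 0 U)).prod (volume.restrict (Ioc 0 U))) :=
      Integrable.comp_snd hi _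
    refine h2.mono ?_ (Eventually.of_forall fun p => ?_)
    · refine Measurable.aestronglyMeasurable ?_
      exact Measurable.ite (measurableSet_le measurable_snd measurable_fst)
        (hf.comp measurable_snd) measurable_const
    · simp only [Function.uncurry]
      split_ifs
      · exact le_rfl
      · rw [norm_zero]; exact norm_nonneg _
  rw [h1, integral_integral_swap hint]
  refine setIntegral_congr_fun measurableSet_Ioc fun t ht => ?_
  have e2 : (fun v => if t ≤ v then f t else 0) = (Ici t).indicator fun _ => f t := by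
    funext v
    by_cases h : t ≤ v
    · rw [if_pos h, indicator_of_mem (show v ∈ Ici t from h)]
    · rw [if_neg h, indicator_of_notMem (show v ∉ Ici t from h)]
  simp only [e2]
  rw [setIntegral_indicator measurableSet_Ici, setIntegral_const, smul_eq_mul]
  congr 1
  have e3 : Ioc 0 U ∩ Ici t = Icc t U := by
    ext v
    simp only [mem_inter_iff, mem_Ioc, mem_Ici, mem_Icc]
    constructor
    · rintro ⟨⟨_, b⟩, c⟩; exact ⟨c, b⟩
    · rintro ⟨a, b⟩; exact ⟨⟨ht.1.trans_le a, b⟩, a⟩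
  rw [e3, Measure.real, Real.volume_Icc, ENNReal.toReal_ofReal (by linarith [ht.2])]

theorem intU_EE (hf : Measurable f) (hI : ∀ w > 0, LInt f w) {U : ℝ} (hU : 0 < U) :
    EP.intU (EE f) U = U * EP.intU f U - 2 * EP.intU (EP.intU f) U := by
  have hi : IntegrableOn f (Ioc 0 U) := b_integrable hf hI U
  have hi2 : IntegrableOn (EP.intU f) (Ioc 0 U) :=
    b_integrable (EP.intU_meas hf) (fun w hw => (EP.lap_intU hf hw (hI w hw)).1) U
  have hi3 : IntegrableOn (EE f) (Ioc 0 U) :=
    b_integrable (EE_meas hf) (fun w hw => EE_LInt hf hI hw) U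
  have h1 := intU_intU hf hU hi
  have hi4 : IntegrableOn (fun u => u * f u) (Ioc 0 U) := by
    refine (Integrable.add hi3 hi2).congr (Eventually.of_forall fun u => ?_)
    simp only [Pi.add_apply, EE]
    ring
  have h2 : ∫ t in Ioc 0 U, (U - t) * f t = U * EP.intU f U - ∫ t in Ioc 0 U, t * f t := by
    unfold EP.intU
    rw [← integral_const_mul, ← integral_sub (hi.const_mul U) hi4]
    refine integral_congr_ae (Eventually.of_forall fun t => ?_)
    simp only []
    ring
  have h3 : EP.intU (EE f) U = (∫ t in Ioc 0 U, t * f t) - EP.intU (EP.intU f) U := by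
    have e : EP.intU (EP.intU f) U = ∫ t in Ioc 0 U, EP.intU f t := rfl
    rw [e]
    have e2 : EP.intU (EE f) U = ∫ t in Ioc 0 U, EE f t := rfl
    rw [e2, ← integral_sub hi4 hi2]
    rfl
  rw [h3]
  linarith

/-- the mean of the absolute value over an interval of length one -/
theorem EE_mean {C : ℝ} (hC : 0 ≤ C)
    (hlow : ∀ T : ℝ, 2 ≤ T → ∀ u : ℝ, 1 ≤ u →
      |EL f T u| ≤ C * Real.log T ^ 2 * (1 + Real.log u))
    (hhigh : ∀ T : ℝ, 2 ≤ T → ∀ U : ℝ, 1 ≤ U →
      ∫⁻ u in Icc U (U + 1), ENNReal.ofReal ((EE f u - EL f T u) ^ 2) ≤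
        ENNReal.ofReal (C * U ^ 4 / T ^ (1 / 2 : ℝ))) {U : ℝ} (hU : 1 ≤ U) :
    ∫⁻ u in Icc U (U + 1), ENNReal.ofReal |EE f u| ≤
      ENNReal.ofReal ((128 * C + 1 + C) * (1 + Real.log U) ^ 3) := by
  have hU0 : 0 < U := by linarith
  have hlU : 0 ≤ Real.log U := Real.log_nonneg hU
  set T : ℝ := 2 * U ^ 8 with hT
  have hU8 : 1 ≤ U ^ 8 := one_le_pow₀ hU
  have hT2 : 2 ≤ T := by rw [hT]; linarith
  have hT0 : 0 < T := by linarith
  have hlT : Real.log T ≤ 8 * (1 + Real.log U) := by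
    rw [hT, Real.log_mul (by norm_num) (by positivity), Real.log_pow]
    have := Real.log_two_lt_d9
    push_cast
    linarith
  have hlT0 : 0 ≤ Real.log T := Real.log_nonneg (by linarith)
  have hTr : U ^ 4 ≤ T ^ (1 / 2 : ℝ) := by
    have h1 : (U ^ 8) ^ (1 / 2 : ℝ) ≤ T ^ (1 / 2 : ℝ) :=
      Real.rpow_le_rpow (by positivity) (by rw [hT]; linarith) (by norm_num)
    have h2 : (U ^ 8) ^ (1 / 2 : ℝ) = U ^ 4 := by
      rw [← Real.rpow_natCast, ← Real.rpow_mul hU0.le, ← Real.rpow_natCast]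
      norm_num
    rw [← h2]
    exact h1
  have hb : ∀ u ∈ Icc U (U + 1), |EE f u| ≤
      128 * C * (1 + Real.log U) ^ 3 + (1 + (EE f u - EL f T u) ^ 2) := by
    intro u hu
    have h1 := hlow T hT2 u (hU.trans hu.1)
    have h2 : Real.log u ≤ 1 + Real.log U + Real.log U := by
      have h3 : Real.log u ≤ Real.log (2 * U) := Real.log_le_log (by linarith [hu.1]) (by linarith [hu.2])
      rw [Real.log_mul (by norm_num) hU0.ne'] at h3
      have := Real.log_two_lt_d9
      linarith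
    have h3 : |EE f u| ≤ |EL f T u| + |EE f u - EL f T u| := by
      have e : EE f u = EL f T u + (EE f u - EL f T u) := by ring
      calc |EE f u| = |EL f T u + (EE f u - EL f T u)| := by rw [← e]
        _ ≤ _ := abs_add_le _ _
    have h4 : |EE f u - EL f T u| ≤ 1 + (EE f u - EL f T u) ^ 2 := by
      rw [← sq_abs (EE f u - EL f T u)]
      nlinarith [sq_nonneg (|EE f u - EL f T u| - 1), abs_nonneg (EE f u - EL f T u)]
    have h5 : C * Real.log T ^ 2 * (1 + Real.log u) ≤
        C * (8 * (1 + Real.log U)) ^ 2 * (2 * (1 + Real.log U)) := by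
      have h6 : 0 ≤ Real.log u := Real.log_nonneg (hU.trans hu.1)
      gcongr
      linarith
    calc |EE f u| ≤ |EL f T u| + |EE f u - EL f T u| := h3
      _ ≤ C * (8 * (1 + Real.log U)) ^ 2 * (2 * (1 + Real.log U)) +
          (1 + (EE f u - EL f T u) ^ 2) := add_le_add (h1.trans h5) h4
      _ = _ := by ring
  calc ∫⁻ u in Icc U (U + 1), ENNReal.ofReal |EE f u| ≤
      ∫⁻ u in Icc U (U + 1), (ENNReal.ofReal (128 * C * (1 + Real.log U) ^ 3 + 1) +
        ENNReal.ofReal ((EE f u - EL f T u) ^ 2)) := by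
        refine setLIntegral_mono' measurableSet_Icc fun u hu => ?_
        rw [← ENNReal.ofReal_add (by positivity) (sq_nonneg _)]
        refine ENNReal.ofReal_le_ofReal ?_
        have := hb u hu
        linarith
    _ = ENNReal.ofReal (128 * C * (1 + Real.log U) ^ 3 + 1) +
        ∫⁻ u in Icc U (U + 1), ENNReal.ofReal ((EE f u - EL f T u) ^ 2) := by
        rw [lintegral_add_left measurable_const, setLIntegral_const, Real.volume_Icc]
        have e : U + 1 - U = 1 := by ring
        rw [e, ENNReal.ofReal_one, mul_one]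
    _ ≤ ENNReal.ofReal (128 * C * (1 + Real.log U) ^ 3 + 1) +
        ENNReal.ofReal (C * U ^ 4 / T ^ (1 / 2 : ℝ)) := by
        gcongr
        exact hhigh T hT2 U hU
    _ ≤ _ := by
        rw [← ENNReal.ofReal_add (by positivity) (by positivity)]
        refine ENNReal.ofReal_le_ofReal ?_
        have h1 : C * U ^ 4 / T ^ (1 / 2 : ℝ) ≤ C := by
          rw [div_le_iff₀ (by positivity)]
          exact mul_le_mul_of_nonneg_left hTr hC
        have h2 : (1 : ℝ) ≤ (1 + Real.log U) ^ 3 := one_le_pow₀ (by linarith)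
        nlinarith

/-- the integral up to `U` -/
theorem EE_int (hf : Measurable f) (hI : ∀ w > 0, LInt f w) {C : ℝ} (hC : 0 ≤ C)
    (hm : ∀ U : ℝ, 1 ≤ U → ∫⁻ u in Icc U (U + 1), ENNReal.ofReal |EE f u| ≤
      ENNReal.ofReal (C * (1 + Real.log U) ^ 3)) :
    ∃ C' : ℝ, 0 ≤ C' ∧ ∀ U : ℝ, 1 ≤ U → |EP.intU (EE f) U| ≤ C' * U * (1 + Real.log U) ^ 3 := by
  have hE : ∀ a b : ℝ, 0 ≤ a → IntegrableOn (fun u => |EE f u|) (Ioc a b) := fun a b ha =>
    ((b_integrable (EE_meas hf) (fun w hw => EE_LInt hf hI hw) b).mono_set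
      (Ioc_subset_Ioc_left ha)).abs
  -- unit intervals
  have hone : ∀ U : ℝ, 1 ≤ U → ∫ u in Ioc U (U + 1), |EE f u| ≤ C * (1 + Real.log U) ^ 3 := by
    intro U hU
    have hlU : 0 ≤ Real.log U := Real.log_nonneg hU
    rw [integral_eq_lintegral_of_nonneg_ae (Eventually.of_forall fun u => abs_nonneg _)
      ((EE_meas hf).abs.aestronglyMeasurable)]
    refine ENNReal.toReal_le_of_le_ofReal (by positivity) ?_
    exact (lintegral_mono_set Ioc_subset_Icc_self).trans (hm U hU)
  have hsum : ∀ (N : ℝ), 1 ≤ N → ∀ n : ℕ, (n : ℝ) ≤ N →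
      ∫ u in Ioc (1 : ℝ) (1 + n), |EE f u| ≤ n * (C * (1 + Real.log (1 + N)) ^ 3) := by
    intro N hN n
    induction n with
    | zero =>
      intro _
      simp
    | succ n ih =>
      intro hn
      have hn' : (n : ℝ) ≤ N := by push_cast at hn; linarith
      have h0 : (0 : ℝ) ≤ n := Nat.cast_nonneg n
      have hun : Ioc (1 : ℝ) (1 + n) ∪ Ioc (1 + (n : ℝ)) (1 + n + 1) = Ioc (1 : ℝ) (1 + n + 1) :=
        Ioc_union_Ioc_eq_Ioc (by linarith) (by linarith)
      have hd : Disjoint (Ioc (1 : ℝ) (1 + n)) (Ioc (1 + (n : ℝ)) (1 + n + 1)) := by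
        rw [Set.disjoint_left]
        intro x hx hx'
        exact absurd hx.2 (not_le.mpr hx'.1)
      have e : (1 : ℝ) + ((n + 1 : ℕ) : ℝ) = 1 + n + 1 := by push_cast; ring
      rw [e, ← hun, setIntegral_union hd measurableSet_Ioc (hE _ _ (by norm_num))
        (hE _ _ (by linarith))]
      have h1 := hone (1 + (n : ℝ)) (by linarith)
      have h2 : C * (1 + Real.log (1 + n)) ^ 3 ≤ C * (1 + Real.log (1 + N)) ^ 3 := by
        have h3 : Real.log (1 + n) ≤ Real.log (1 + N) := Real.log_le_log (by linarith) (by linarith)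
        have h4 : 0 ≤ Real.log (1 + (n : ℝ)) := Real.log_nonneg (by linarith)
        gcongr
      have h5 := ih hn'
      push_cast
      linarith
  set A : ℝ := ∫ u in Ioc (0 : ℝ) 1, |EE f u| with hA
  have hA0 : 0 ≤ A := integral_nonneg fun u => abs_nonneg _
  refine ⟨A + 16 * C, by positivity, fun U hU => ?_⟩
  have hU0 : 0 < U := by linarith
  have hlU : 0 ≤ Real.log U := Real.log_nonneg hU
  set n : ℕ := ⌊U⌋₊ with hn
  have hnU : (n : ℝ) ≤ U := Nat.floor_le hU0.le
  have hUn : U < n + 1 := Nat.lt_floor_add_one U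
  have h1 := hsum U hU n hnU
  have hn0 : (0 : ℝ) ≤ n := Nat.cast_nonneg n
  have h2 : |EP.intU (EE f) U| ≤ A + ∫ u in Ioc (1 : ℝ) (1 + n), |EE f u| := by
    calc |EP.intU (EE f) U| ≤ ∫ u in Ioc 0 U, |EE f u| := by
          unfold EP.intU
          exact abs_integral_le_integral_abs
      _ ≤ ∫ u in Ioc 0 (1 + (n : ℝ)), |EE f u| :=
          setIntegral_mono_set (hE 0 _ le_rfl) (Eventually.of_forall fun u => abs_nonneg _)
            (Ioc_subset_Ioc_right (by linarith)).eventuallyLE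
      _ = _ := by
          have hun : Ioc (0 : ℝ) 1 ∪ Ioc (1 : ℝ) (1 + n) = Ioc (0 : ℝ) (1 + n) :=
            Ioc_union_Ioc_eq_Ioc (by norm_num) (by linarith)
          have hd : Disjoint (Ioc (0 : ℝ) 1) (Ioc (1 : ℝ) (1 + n)) := by
            rw [Set.disjoint_left]
            intro x hx hx'
            exact absurd hx.2 (not_le.mpr hx'.1)
          rw [← hun, setIntegral_union hd measurableSet_Ioc (hE _ _ le_rfl) (hE _ _ (by norm_num))]
  have h3 : Real.log (1 + U) ≤ 1 + Real.log U := by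
    have h4 : Real.log (1 + U) ≤ Real.log (2 * U) := Real.log_le_log (by linarith) (by linarith)
    rw [Real.log_mul (by norm_num) hU0.ne'] at h4
    have := Real.log_two_lt_d9
    linarith
  have h5 : (1 + Real.log (1 + U)) ^ 3 ≤ (2 * (1 + Real.log U)) ^ 3 := by
    have h6 : 0 ≤ Real.log (1 + U) := Real.log_nonneg (by linarith)
    gcongr
    linarith
  have h6 : (1 : ℝ) ≤ (1 + Real.log U) ^ 3 := one_le_pow₀ (by linarith)
  have h7 : (1 : ℝ) ≤ U * (1 + Real.log U) ^ 3 := by nlinarith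
  calc |EP.intU (EE f) U| ≤ A + n * (C * (1 + Real.log (1 + U)) ^ 3) := h2.trans (by linarith)
    _ ≤ A * (U * (1 + Real.log U) ^ 3) + U * (C * (2 * (1 + Real.log U)) ^ 3) := by
        have h8 : A * 1 ≤ A * (U * (1 + Real.log U) ^ 3) := mul_le_mul_of_nonneg_left h7 hA0
        have h9 : n * (C * (1 + Real.log (1 + U)) ^ 3) ≤ U * (C * (2 * (1 + Real.log U)) ^ 3) := by
          have : 0 ≤ Real.log (1 + U) := Real.log_nonneg (by linarith)
          gcongr
        linarith
    _ = (A + 8 * C) * U * (1 + Real.log U) ^ 3 := by ring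
    _ ≤ _ := by gcongr; linarith

/-- **The primitive is `O(log³ u)`.** -/
theorem r_bound (hf : Measurable f) (hI : ∀ w > 0, LInt f w) {C C2 : ℝ} (hC : 0 ≤ C)
    (hlow : ∀ T : ℝ, 2 ≤ T → ∀ u : ℝ, 1 ≤ u →
      |EL f T u| ≤ C * Real.log T ^ 2 * (1 + Real.log u))
    (hhigh : ∀ T : ℝ, 2 ≤ T → ∀ U : ℝ, 1 ≤ U →
      ∫⁻ u in Icc U (U + 1), ENNReal.ofReal ((EE f u - EL f T u) ^ 2) ≤
        ENNReal.ofReal (C * U ^ 4 / T ^ (1 / 2 : ℝ)))
    (h2 : ∀ᶠ u : ℝ in atTop, |EP.intU (EP.intU f) u| ≤ C2 * u) :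
    ∃ C' : ℝ, 0 ≤ C' ∧ ∀ᶠ u : ℝ in atTop, |EP.intU f u| ≤ C' * (1 + Real.log u) ^ 3 := by
  obtain ⟨C3, hC3, h3⟩ := EE_int hf hI (C := 128 * C + 1 + C) (by positivity)
    (fun U hU => EE_mean hC hlow hhigh hU)
  refine ⟨C3 + 2 * |C2|, by positivity, ?_⟩
  filter_upwards [h2, eventually_ge_atTop 1] with u hu hu1
  have hu0 : 0 < u := by linarith
  have hlu : 0 ≤ Real.log u := Real.log_nonneg hu1
  have h4 := intU_EE hf hI hu0
  have h5 := h3 u hu1
  have h6 : (1 : ℝ) ≤ (1 + Real.log u) ^ 3 := one_le_pow₀ (by linarith)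
  have h7 : u * |EP.intU f u| ≤ u * ((C3 + 2 * |C2|) * (1 + Real.log u) ^ 3) := by
    calc u * |EP.intU f u| = |u * EP.intU f u| := by rw [abs_mul, abs_of_pos hu0]
      _ = |EP.intU (EE f) u + 2 * EP.intU (EP.intU f) u| := by rw [h4]; congr 1; ring
      _ ≤ |EP.intU (EE f) u| + 2 * |EP.intU (EP.intU f) u| := by
          refine (abs_add_le _ _).trans ?_
          rw [abs_mul, abs_of_pos (by norm_num : (0 : ℝ) < 2)]
      _ ≤ C3 * u * (1 + Real.log u) ^ 3 + 2 * (|C2| * u) := by
          have := mul_le_mul_of_nonneg_right (le_abs_self C2) hu0.le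
          linarith
      _ ≤ C3 * u * (1 + Real.log u) ^ 3 + 2 * (|C2| * u) * (1 + Real.log u) ^ 3 := by
          have : 0 ≤ 2 * (|C2| * u) := by positivity
          nlinarith
      _ = _ := by ring
  exact le_of_mul_le_mul_left h7 hu0

end Pool.Agent.W263.SP
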