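import Pool.Agent.W263.HI.Gen
import Pool.Agent.W263.SP.Loc

/-! Transforms of the smoothed function. -/

set_option autoImplicit false

namespace Pool.Agent.W263.SP

open MeasureTheory Filter Topology Set Classical
open Pool.Agent.W263.BSD Pool.Agent.W263.EP Pool.Agent.W263.MN Pool.Agent.W263.LG
open Pool.Agent.W263.MS Pool.Agent.W263.HI
open scoped ENNReal

/-- inversion on the line `Re w = 1/u` -/
theorem inv_line {f : ℝ → ℝ} (hf : Measurable f) (hi : LInt f 1) {H : ℂ → ℂ}
    (hd : ∀ w : ℂ, 0 < w.re → DifferentiableAt ℂ H w)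
    (heq : ∀ w : ℂ, w.re = 1 → lapC f w = H w)
    (hB : ∀ a : ℝ, 0 < a → a ≤ 1 → ∃ B : ℝ, 0 ≤ B ∧ ∀ w : ℂ, a ≤ w.re → w.re ≤ 1 →
      ‖H w‖ ≤ B * (1 + |w.im|) ^ (-(3 / 2 : ℝ)))
    {u : ℝ} (hu : 1 ≤ u) (hc : ContinuousAt f u) :
    |f u| ≤ Real.exp 1 * ∫ y : ℝ, ‖H (((1 / u : ℝ) : ℂ) + y * Complex.I)‖ := by
  have hu0 : 0 < u := by linarith
  set a : ℝ := 1 / u with ha
  have ha0 : 0 < a := by rw [ha]; positivity
  have ha1 : a ≤ 1 := by rw [ha, div_le_one hu0]; exact hu
  obtain ⟨B, hB0, hstrip⟩ := hB a ha0 ha1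
  have hline : ∀ y : ℝ, lapC f (1 + y * Complex.I) = H (((1 : ℝ) : ℂ) + y * Complex.I) := by
    intro y
    rw [heq _ (by simp), Complex.ofReal_one]
  have hI : Integrable fun y : ℝ => lapC f (1 + y * Complex.I) := by
    have h1 := vertical_integrable (H := H) (a := 1)
      (fun s hs => (hd s (by rw [hs]; exact one_pos)).continuousAt)
      (fun s hs => hstrip s (by rw [hs]; exact ha1) hs.le)
    exact h1.congr (Eventually.of_forall fun y => (hline y).symm)
  have hIa : Integrable fun y : ℝ => H ((a : ℂ) + y * Complex.I) :=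
    vertical_integrable (H := H) (a := a)
      (fun s hs => (hd s (by rw [hs]; exact ha0)).continuousAt)
      (fun s hs => hstrip s hs.ge (by rw [hs]; exact ha1))
  have hinv := lap_inversion hf hu0 hc hi hI
  have hshift := contour_shift (H := fun w => Complex.exp (w * u) * H w)
    (B := Real.exp u * B) ha1
    (fun s h1 h2 => (by fun_prop : DifferentiableAt ℂ (fun w : ℂ => Complex.exp (w * u)) s).mul
      (hd s (lt_of_lt_of_le ha0 h1)))
    (fun s h1 h2 => by
      rw [norm_mul, Complex.norm_exp]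
      have e1 : (s * (u : ℂ)).re = s.re * u := by simp
      have e2 : Real.exp (s * (u : ℂ)).re ≤ Real.exp u := by
        rw [e1]
        exact Real.exp_le_exp.mpr (by nlinarith)
      rw [mul_assoc]
      exact mul_le_mul e2 (hstrip s h1 h2) (norm_nonneg _) (Real.exp_pos _).le)
  have hfin : (f u : ℂ) = (1 / (2 * Real.pi) : ℝ) *
      ∫ y : ℝ, Complex.exp ((a + y * Complex.I) * u) * H (a + y * Complex.I) := by
    rw [hinv]
    congr 1
    rw [hshift]
    congr 1
    funext y
    rw [hline y, Complex.ofReal_one]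
  have hnorm : |f u| = ‖(f u : ℂ)‖ := by rw [Complex.norm_real, Real.norm_eq_abs]
  rw [hnorm, hfin, norm_mul, Complex.norm_real, Real.norm_of_nonneg (by positivity)]
  have hbd : ‖∫ y : ℝ, Complex.exp ((a + y * Complex.I) * u) * H (a + y * Complex.I)‖ ≤
      ∫ y : ℝ, Real.exp 1 * ‖H ((a : ℂ) + y * Complex.I)‖ := by
    refine norm_integral_le_of_norm_le (hIa.norm.const_mul _) (Eventually.of_forall fun y => ?_)
    rw [norm_mul, Complex.norm_exp]
    have e1 : (((a : ℂ) + y * Complex.I) * (u : ℂ)).re = 1 := by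
      simp only [Complex.mul_re, Complex.add_re, Complex.ofReal_re, Complex.I_re,
        Complex.add_im, Complex.ofReal_im, Complex.mul_im, Complex.I_im]
      rw [ha]
      field_simp
      ring
    rw [e1]
  rw [integral_const_mul] at hbd
  have h2pi : 1 / (2 * Real.pi) ≤ 1 := by
    rw [div_le_one (by positivity)]
    linarith [Real.pi_gt_three]
  have h0 : 0 ≤ Real.exp 1 * ∫ y : ℝ, ‖H ((a : ℂ) + y * Complex.I)‖ :=
    mul_nonneg (Real.exp_pos _).le (integral_nonneg fun y => norm_nonneg _)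
  calc _ ≤ 1 / (2 * Real.pi) * (Real.exp 1 * ∫ y : ℝ, ‖H ((a : ℂ) + y * Complex.I)‖) := by gcongr
    _ ≤ 1 * (Real.exp 1 * ∫ y : ℝ, ‖H ((a : ℂ) + y * Complex.I)‖) :=
      mul_le_mul_of_nonneg_right h2pi h0
    _ = _ := one_mul _

/-- a shift multiplies the transform by an exponential -/
theorem lapC_shift {h : ℝ → ℝ} (h0 : ∀ u, u ≤ 0 → h u = 0) {τ : ℝ} (hτ : 0 ≤ τ) (w : ℂ) :
    lapC (fun u => h (u - τ)) w = Complex.exp (-(w * τ)) * lapC h w := by
  have e : ∀ k : ℝ → ℝ, (∀ u, u ≤ 0 → k u = 0) →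
      lapC k w = ∫ u : ℝ, (k u : ℂ) * Complex.exp (-(w * u)) := by
    intro k hk
    unfold lapC
    refine setIntegral_eq_integral_of_forall_compl_eq_zero fun u hu => ?_
    rw [hk u (not_lt.mp hu)]
    simp
  rw [e _ (fun u hu => h0 _ (by linarith)), e h h0,
    ← integral_sub_right_eq_self (fun u : ℝ => (h u : ℂ) * Complex.exp (-(w * u))) τ,
    ← integral_const_mul]
  refine integral_congr_ae (Eventually.of_forall fun u => ?_)
  simp only []
  have e2 : Complex.exp (-(w * u)) = Complex.exp (-(w * τ)) * Complex.exp (-(w * ((u - τ : ℝ) : ℂ))) := by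
    rw [← Complex.exp_add]
    congr 1
    push_cast
    ring
  rw [e2]
  ring

/-- the kernel `(1 - e^{-z}) / z` -/
noncomputable def kk (z : ℂ) : ℂ := (1 - Complex.exp (-z)) / z

theorem one_sub_exp_le {z : ℂ} (hz : 0 ≤ z.re) : ‖1 - Complex.exp (-z)‖ ≤ ‖z‖ := by
  have h1 := exp_sub_one_le z hz
  have e : 1 - Complex.exp (-z) = Complex.exp (-z) * (Complex.exp z - 1) := by
    rw [mul_sub, ← Complex.exp_add, neg_add_cancel, Complex.exp_zero, mul_one]
  rw [e, norm_mul, Complex.norm_exp, Complex.neg_re]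
  calc Real.exp (-z.re) * ‖Complex.exp z - 1‖ ≤ Real.exp (-z.re) * (‖z‖ * Real.exp z.re) := by gcongr
    _ = ‖z‖ * (Real.exp (-z.re) * Real.exp z.re) := by ring
    _ = _ := by rw [← Real.exp_add, neg_add_cancel, Real.exp_zero, mul_one]

theorem one_sub_exp_le' {z : ℂ} (hz : 0 ≤ z.re) : ‖1 - Complex.exp (-z)‖ ≤ 2 := by
  refine (norm_sub_le _ _).trans ?_
  rw [norm_one, Complex.norm_exp, Complex.neg_re]
  have : Real.exp (-z.re) ≤ 1 := Real.exp_le_one_iff.mpr (by linarith)
  linarith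

theorem kk_le {z : ℂ} (hz : 0 < z.re) : ‖kk z‖ ≤ 2 * min 1 (1 / ‖z‖) := by
  have hn : 0 < ‖z‖ := hz.trans_le (re_le z)
  unfold kk
  rw [norm_div, div_le_iff₀ hn]
  rcases le_total 1 (1 / ‖z‖) with h | h
  · rw [min_eq_left h]
    have := one_sub_exp_le hz.le
    linarith
  · rw [min_eq_right h]
    have := one_sub_exp_le' hz.le
    have e : 2 * (1 / ‖z‖) * ‖z‖ = 2 := by field_simp
    rw [e]
    exact this

theorem one_sub_kk_le {z : ℂ} (hz : 0 < z.re) : ‖1 - kk z‖ ^ 2 ≤ 9 * ‖z‖ ^ (1 / 2 : ℝ) := by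
  have hn : 0 < ‖z‖ := hz.trans_le (re_le z)
  have hzne : z ≠ 0 := norm_pos_iff.mp hn
  rcases le_total ‖z‖ 1 with h | h
  · have h1 : ‖1 - kk z‖ ≤ ‖z‖ := by
      have e : 1 - kk z = (Complex.exp (-z) - 1 - (-z)) / z := by
        unfold kk
        field_simp
        ring
      rw [e, norm_div, div_le_iff₀ hn]
      have h2 := Complex.norm_exp_sub_one_sub_id_le (x := -z) (by rwa [norm_neg])
      rw [norm_neg] at h2
      rw [← pow_two]
      exact h2
    have h3 : ‖z‖ ^ 2 ≤ ‖z‖ ^ (1 / 2 : ℝ) := by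
      rw [← Real.rpow_natCast]
      exact Real.rpow_le_rpow_of_exponent_ge hn h (by norm_num)
    have h4 : ‖1 - kk z‖ ^ 2 ≤ ‖z‖ ^ 2 := pow_le_pow_left₀ (norm_nonneg _) h1 2
    have h5 : 0 ≤ ‖z‖ ^ (1 / 2 : ℝ) := by positivity
    linarith
  · have h1 : ‖1 - kk z‖ ≤ 3 := by
      refine (norm_sub_le _ _).trans ?_
      have h2 := kk_le hz
      have h3 : min 1 (1 / ‖z‖) ≤ 1 := min_le_left _ _
      rw [norm_one]
      linarith
    have h3 : 1 ≤ ‖z‖ ^ (1 / 2 : ℝ) := Real.one_le_rpow h (by norm_num)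
    have h4 : ‖1 - kk z‖ ^ 2 ≤ 3 ^ 2 := pow_le_pow_left₀ (norm_nonneg _) h1 2
    linarith

/-- the function `u f(u) - ∫_0^u f` -/
noncomputable def EE (f : ℝ → ℝ) (u : ℝ) : ℝ := u * f u - EP.intU f u

/-- its moving average over intervals of length `1/T` -/
noncomputable def EL (f : ℝ → ℝ) (T u : ℝ) : ℝ :=
  T * (EP.intU (EE f) u - EP.intU (EE f) (u - 1 / T))

theorem EE_meas {f : ℝ → ℝ} (hf : Measurable f) : Measurable (EE f) :=
  (measurable_id.mul hf).sub (EP.intU_meas hf)

theorem EL_meas {f : ℝ → ℝ} (hf : Measurable f) (T : ℝ) : Measurable (EL f T) :=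
  ((EP.intU_meas (EE_meas hf)).sub ((EP.intU_meas (EE_meas hf)).comp
    (measurable_id.sub_const _))).const_mul T

section Tr

variable {f : ℝ → ℝ} {g D : ℂ → ℂ}

theorem EE_LInt (hf : Measurable f) (hI : ∀ w > 0, LInt f w) {w : ℝ} (hw : 0 < w) :
    LInt (EE f) w := by
  have h1 : LInt (fun u => u * f u) w := LInt_id_mul hf (show w / 2 < w by linarith)
    (hI _ (by linarith))
  have h2 : LInt (EP.intU f) w := (EP.lap_intU hf hw (hI w hw)).1
  have h3 := Integrable.sub h1 h2
  refine h3.congr (Eventually.of_forall fun u => ?_)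
  simp only [Pi.sub_apply, EE]
  ring

theorem EE_lap (hf : Measurable f) (hI : ∀ w > 0, LInt f w)
    (hg : ∀ w : ℂ, 0 < w.re → lapC f w = g w / w)
    (hgd : ∀ w : ℂ, 0 < w.re → HasDerivAt g (D w) w) {w : ℂ} (hw : 0 < w.re) :
    lapC (EE f) w = -(D w / w) := by
  have hwn : w ≠ 0 := w_ne hw
  have h1 := lapC_hasDerivAt hf (s := 0) hI hw
  have h2 : HasDerivAt (fun w => g w / w) ((D w * w - g w * 1) / w ^ 2) w :=
    (hgd w hw).div (hasDerivAt_id w) hwn
  have h3 : lapC f =ᶠ[𝓝 w] fun w => g w / w := by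
    filter_upwards [(isOpen_half 0).mem_nhds hw] with z hz using hg z hz
  have h4 : -lapC (fun u => u * f u) w = (D w * w - g w * 1) / w ^ 2 :=
    h1.unique (h2.congr_of_eventuallyEq h3)
  have i1 : LInt (fun u => u * f u) w.re := LInt_id_mul hf (show w.re / 2 < w.re by linarith)
    (hI _ (by linarith))
  have i2 : LInt (EP.intU f) w.re := (EP.lap_intU hf hw (hI _ hw)).1
  have c1 : IntegrableOn (fun u : ℝ => ((u * f u : ℝ) : ℂ) * Complex.exp (-(w * u))) (Ioi 0) :=
    i1.complex (measurable_id.mul hf)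
  have c2 : IntegrableOn (fun u : ℝ => ((EP.intU f u : ℝ) : ℂ) * Complex.exp (-(w * u))) (Ioi 0) :=
    i2.complex (EP.intU_meas hf)
  have h5 : lapC (EE f) w = lapC (fun u => u * f u) w - lapC (EP.intU f) w := by
    unfold lapC
    rw [← integral_sub c1 c2]
    refine integral_congr_ae (Eventually.of_forall fun u => ?_)
    simp only [EE, Pi.mul_apply, id]
    push_cast
    ring
  have h6 : w * lapC (EP.intU f) w = lapC f w := lapC_intU hf hI hw
  rw [hg w hw] at h6
  have h7 : lapC (EP.intU f) w = g w / w ^ 2 := by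
    field_simp at h6 ⊢
    linear_combination h6
  rw [h5, h7]
  have h8 : lapC (fun u => u * f u) w = -((D w * w - g w * 1) / w ^ 2) := by
    rw [← h4, neg_neg]
  rw [h8]
  field_simp
  ring

theorem intU_zero (f : ℝ → ℝ) {u : ℝ} (hu : u ≤ 0) : EP.intU f u = 0 := by
  unfold EP.intU
  rw [Ioc_eq_empty (by linarith)]
  simp

theorem shift_LInt {h : ℝ → ℝ} (hm : Measurable h) (h0 : ∀ u, u ≤ 0 → h u = 0) {τ : ℝ}
    (hτ : 0 ≤ τ) {w : ℝ} (hi : LInt h w) : LInt (fun u => h (u - τ)) w := by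
  have e : ∀ k : ℝ → ℝ, (∀ u, u ≤ 0 → k u = 0) →
      (LInt k w ↔ Integrable fun u => k u * Real.exp (-(w * u))) := by
    intro k hk
    unfold LInt
    refine integrableOn_iff_integrable_of_support_subset ?_
    intro u hu
    by_contra hcon
    have hcon' : u ≤ 0 := not_lt.mp hcon
    refine hu ?_
    simp only []
    rw [hk u hcon', zero_mul]
  rw [e _ (fun u hu => h0 _ (by linarith))]
  have h1 := ((e h h0).mp hi).comp_sub_right τ
  refine (h1.const_mul (Real.exp (-(w * τ)))).congr (Eventually.of_forall fun u => ?_)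
  simp only []
  have e2 : Real.exp (-(w * u)) = Real.exp (-(w * τ)) * Real.exp (-(w * (u - τ))) := by
    rw [← Real.exp_add]
    congr 1
    ring
  rw [e2]
  ring

theorem EL_LInt (hf : Measurable f) (hI : ∀ w > 0, LInt f w) {T : ℝ} (hT : 0 < T) {w : ℝ}
    (hw : 0 < w) : LInt (EL f T) w := by
  have hE := EE_meas hf
  have h1 : LInt (EP.intU (EE f)) w := (EP.lap_intU hE hw (EE_LInt hf hI hw)).1
  have h2 := shift_LInt (EP.intU_meas hE) (fun u hu => intU_zero _ hu)
    (show 0 ≤ 1 / T by positivity) h1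
  have h3 := (Integrable.sub h1 h2).const_mul T
  refine h3.congr (Eventually.of_forall fun u => ?_)
  simp only [Pi.sub_apply, EL]
  ring

theorem EL_lap (hf : Measurable f) (hI : ∀ w > 0, LInt f w)
    (hg : ∀ w : ℂ, 0 < w.re → lapC f w = g w / w)
    (hgd : ∀ w : ℂ, 0 < w.re → HasDerivAt g (D w) w) {T : ℝ} (hT : 0 < T) {w : ℂ} (hw : 0 < w.re) :
    lapC (EL f T) w = -(D w / w) * kk (w / T) := by
  have hwn : w ≠ 0 := w_ne hw
  have hE := EE_meas hf
  have h1 : LInt (EP.intU (EE f)) w.re := (EP.lap_intU hE hw (EE_LInt hf hI hw)).1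
  have h2 := shift_LInt (EP.intU_meas hE) (fun u hu => intU_zero _ hu)
    (show 0 ≤ 1 / T by positivity) h1
  have c1 : IntegrableOn (fun u : ℝ => ((EP.intU (EE f) u : ℝ) : ℂ) * Complex.exp (-(w * u)))
      (Ioi 0) := h1.complex (EP.intU_meas hE)
  have c2 : IntegrableOn (fun u : ℝ => ((EP.intU (EE f) (u - 1 / T) : ℝ) : ℂ) *
      Complex.exp (-(w * u))) (Ioi 0) :=
    h2.complex ((EP.intU_meas hE).comp (measurable_id.sub_const _))
  have e1 : lapC (EL f T) w = T * (lapC (EP.intU (EE f)) w -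
      lapC (fun u => EP.intU (EE f) (u - 1 / T)) w) := by
    unfold lapC
    rw [← integral_sub c1 c2, ← integral_const_mul]
    refine integral_congr_ae (Eventually.of_forall fun u => ?_)
    simp only [EL]
    push_cast
    ring
  have e2 := lapC_shift (h := EP.intU (EE f)) (fun u hu => intU_zero _ hu)
    (show 0 ≤ 1 / T by positivity) w
  have e3 : w * lapC (EP.intU (EE f)) w = lapC (EE f) w :=
    lapC_intU hE (fun w hw => EE_LInt hf hI hw) hw
  rw [EE_lap hf hI hg hgd hw] at e3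
  have e4 : lapC (EP.intU (EE f)) w = -(D w / w) / w := by
    rw [← e3, mul_div_cancel_left₀ _ hwn]
  have hTc : (T : ℂ) ≠ 0 := by exact_mod_cast hT.ne'
  have e5 : w * ((1 / T : ℝ) : ℂ) = w / T := by push_cast; ring
  rw [e1, e2, e4, e5]
  unfold kk
  field_simp
  ring

/-- local boundedness and continuity of the smoothed function -/
theorem EL_cont (hf : Measurable f) (hl : ∀ U, IntegrableOn (EE f) (Ioc 0 U)) {T : ℝ} {u : ℝ}
    (hu : 0 < u) : ContinuousAt (EL f T) u := by
  -- the primitive is continuous on the whole line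
  have hc : Continuous (EP.intU (EE f)) := by
    set k : ℝ → ℝ := (Ioi (0 : ℝ)).indicator (EE f) with hk
    have hki : ∀ a b : ℝ, IntervalIntegrable k volume a b := by
      intro a b
      rw [intervalIntegrable_iff]
      have h1 : IntegrableOn k (Ioc 0 (max |a| |b|)) :=
        (hl _).congr_fun (fun u hu => (indicator_of_mem (show u ∈ Ioi (0 : ℝ) from hu.1) _).symm)
          measurableSet_Ioc
      have h2 : IntegrableOn k (Ioc (-(max |a| |b|)) 0) := by
        refine (integrableOn_zero (μ := volume)).congr_fun (fun u hu => ?_) measurableSet_Ioc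
        rw [hk, indicator_of_notMem (show u ∉ Ioi (0 : ℝ) from not_lt.mpr hu.2)]
      have h3 := h2.union h1
      refine h3.mono_set fun u hu => ?_
      rw [mem_uIoc] at hu
      have ha := abs_le.mp (le_max_left |a| |b|)
      have hb := abs_le.mp (le_max_right |a| |b|)
      have ha1 := neg_abs_le a
      have ha2 := le_abs_self a
      have hb1 := neg_abs_le b
      have hb2 := le_abs_self b
      have hm1 := le_max_left |a| |b|
      have hm2 := le_max_right |a| |b|
      rcases le_or_gt u 0 with h0 | h0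
      · left
        refine ⟨?_, h0⟩
        rcases hu with ⟨h5, h6⟩ | ⟨h5, h6⟩ <;> linarith
      · right
        refine ⟨h0, ?_⟩
        rcases hu with ⟨h5, h6⟩ | ⟨h5, h6⟩ <;> linarith
    have h4 := intervalIntegral.continuous_primitive hki 0
    refine h4.congr fun u => ?_
    rcases le_or_gt u 0 with h0 | h0
    · rw [intU_zero _ h0, intervalIntegral.integral_of_ge h0, neg_eq_zero]
      refine setIntegral_eq_zero_of_forall_eq_zero fun v hv => ?_
      rw [hk, indicator_of_notMem (show v ∉ Ioi (0 : ℝ) from not_lt.mpr hv.2)]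
    · rw [intervalIntegral.integral_of_le h0.le]
      unfold EP.intU
      refine setIntegral_congr_fun measurableSet_Ioc fun v hv => ?_
      rw [hk, indicator_of_mem (show v ∈ Ioi (0 : ℝ) from hv.1)]
  unfold EL
  exact ((hc.sub (hc.comp (continuous_id.sub continuous_const))).const_mul T).continuousAt

end Tr

end Pool.Agent.W263.SP
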